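import Mathlib

/-! # Tarski's theorem for subsets of groups -/

set_option autoImplicit false

namespace Pool.Agent.N485.BT

open Filter Finset Topology

variable {G : Type*} [Group G]

/-- There is a finitely additive left-invariant measure with values in `[0, ∞]` on all subsets of
`G` that gives `A` measure one. -/
def HasMeasure (A : Set G) : Prop :=
  ∃ μ : Set G → ENNReal, μ ∅ = 0 ∧ (∀ B C : Set G, Disjoint B C → μ (B ∪ C) = μ B + μ C) ∧
    (∀ (g : G) (B : Set G), μ ((fun x => g * x) '' B) = μ B) ∧ μ A = 1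

/-- Left paradoxical subsets. -/
def LPar (A : Set G) : Prop :=
  ∃ (T : Finset G) (j : Bool → G → G), (∀ i, ∀ x ∈ A, j i x ∈ A ∧ ∃ t ∈ T, j i x = t * x) ∧
    ∀ i i' x x', x ∈ A → x' ∈ A → j i x = j i' x' → i = i' ∧ x = x'

open Classical in
/-- one step of the expansion inside `A` -/
noncomputable def stp (K : Finset G) (A : Set G) (F : Finset G) : Finset G :=
  F.biUnion (fun y => (K.image (fun k => k * y)).filter (· ∈ A))

/-- Foelner condition for `A` -/
def FC (A : Set G) : Prop :=
  ∀ (K : Finset G) (ε : ℝ), 0 < ε → ∃ F : Finset G, F.Nonempty ∧ (F : Set G) ⊆ A ∧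
    ((stp K A F).card : ℝ) < (1 + ε) * F.card

theorem mem_stp (K : Finset G) (A : Set G) (F : Finset G) (z : G) :
    z ∈ stp K A F ↔ z ∈ A ∧ ∃ k ∈ K, ∃ y ∈ F, z = k * y := by
  classical
  simp only [stp, mem_biUnion, mem_filter, mem_image]
  constructor
  · rintro ⟨y, hy, ⟨k, hk, rfl⟩, hA⟩
    exact ⟨hA, k, hk, y, hy, rfl⟩
  · rintro ⟨hA, k, hk, y, hy, rfl⟩
    exact ⟨y, hy, ⟨k, hk, rfl⟩, hA⟩

/-- iterated step -/
noncomputable def stpn (K : Finset G) (A : Set G) : ℕ → Finset G → Finset G
  | 0, F => F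
  | (n + 1), F => stp K A (stpn K A n F)

open Classical in
/-- products -/
noncomputable def Pw (K : Finset G) : ℕ → Finset G
  | 0 => {1}
  | (n + 1) => (K ×ˢ Pw K n).image (fun x => x.1 * x.2)

theorem mem_stpn (K : Finset G) (A : Set G) (n : ℕ) (F : Finset G) (z : G)
    (hz : z ∈ stpn K A n F) : ∃ y ∈ F, z ∈ stpn K A n {y} ∧ ∃ t ∈ Pw K n, z = t * y := by
  classical
  induction n generalizing z with
  | zero => exact ⟨z, hz, by simp [stpn], 1, by simp [Pw], by simp⟩
  | succ n ih =>
    rw [stpn, mem_stp] at hz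
    obtain ⟨hA, k, hk, y, hy, rfl⟩ := hz
    obtain ⟨x, hx, h1, t, ht, rfl⟩ := ih y hy
    refine ⟨x, hx, ?_, k * t, ?_, by rw [mul_assoc]⟩
    · rw [stpn, mem_stp]
      exact ⟨hA, k, hk, t * x, h1, rfl⟩
    · rw [Pw, mem_image]
      exact ⟨(k, t), by simp [hk, ht], rfl⟩

theorem stpn_mono (K : Finset G) (A : Set G) (n : ℕ) (F F' : Finset G) (h : F ⊆ F') :
    stpn K A n F ⊆ stpn K A n F' := by
  induction n with
  | zero => exact h
  | succ n ih =>
    intro z hz
    rw [stpn, mem_stp] at hz ⊢
    obtain ⟨hA, k, hk, y, hy, rfl⟩ := hz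
    exact ⟨hA, k, hk, y, ih hy, rfl⟩

theorem lpar_of_not_FC (A : Set G) (h : ¬ FC A) : LPar A := by
  classical
  unfold FC at h
  push Not at h
  obtain ⟨K, ε, hε, hK⟩ := h
  have hgrow : ∀ (n : ℕ) (F : Finset G), F.Nonempty → (F : Set G) ⊆ A →
      (stpn K A n F).Nonempty ∧ ((stpn K A n F : Finset G) : Set G) ⊆ A ∧
      (1 + ε) ^ n * (F.card : ℝ) ≤ ((stpn K A n F).card : ℝ) := by
    intro n F hF hFA
    induction n with
    | zero => exact ⟨hF, hFA, by simp [stpn]⟩
    | succ n ih =>
      obtain ⟨h1, h2, h3⟩ := ih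
      have h4 := hK _ h1 h2
      have h5 : (0 : ℝ) < (stpn K A n F).card := by exact_mod_cast h1.card_pos
      have h6 : (0 : ℝ) < ((stp K A (stpn K A n F)).card : ℝ) :=
        lt_of_lt_of_le (by positivity) h4
      refine ⟨?_, ?_, ?_⟩
      · rw [stpn, ← Finset.card_pos]; exact_mod_cast h6
      · intro z hz
        rw [stpn, mem_coe, mem_stp] at hz
        exact hz.1
      · rw [stpn, pow_succ]
        calc (1 + ε) ^ n * (1 + ε) * (F.card : ℝ) = (1 + ε) * ((1 + ε) ^ n * F.card) := by ring
          _ ≤ (1 + ε) * (stpn K A n F).card := by gcongr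
          _ ≤ _ := h4
  obtain ⟨n, hn⟩ := pow_unbounded_of_one_lt 2 (by linarith : (1 : ℝ) < 1 + ε)
  let t : A × Bool → Finset G := fun a => stpn K A n {a.1.1}
  have hall : ∀ s : Finset (A × Bool), s.card ≤ (s.biUnion t).card := by
    intro s
    rcases s.eq_empty_or_nonempty with hs | hs
    · rw [hs]; simp
    let F : Finset G := s.image (fun z => z.1.1)
    have hFA : (F : Set G) ⊆ A := by
      intro z hz
      rw [mem_coe, mem_image] at hz
      obtain ⟨a, _, rfl⟩ := hz
      exact a.1.2
    have hsF : s.card ≤ F.card * 2 := by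
      have h1 : s.card ≤ (F ×ˢ (univ : Finset Bool)).card := by
        apply card_le_card_of_injOn (fun z : A × Bool => (z.1.1, z.2))
        · intro z hz
          rw [mem_coe, mem_product]
          exact ⟨mem_image_of_mem _ hz, mem_univ _⟩
        · rintro ⟨⟨a, ha⟩, b⟩ _ ⟨⟨a', ha'⟩, b'⟩ _ h
          simp only [Prod.mk.injEq] at h
          obtain ⟨rfl, rfl⟩ := h
          rfl
      rwa [card_product, card_univ, Fintype.card_bool] at h1
    have hsub : stpn K A n F ⊆ s.biUnion t := by
      intro z hz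
      obtain ⟨y, hy, h1, _⟩ := mem_stpn K A n F z hz
      rw [mem_image] at hy
      obtain ⟨a, ha, rfl⟩ := hy
      rw [mem_biUnion]
      exact ⟨a, ha, h1⟩
    have h2 := (hgrow n F (hs.image _) hFA).2.2
    have h3 : (F.card : ℝ) * 2 ≤ ((stpn K A n F).card : ℝ) := by
      refine le_trans ?_ h2
      rw [mul_comm]
      gcongr
    have h4 : F.card * 2 ≤ (stpn K A n F).card := by exact_mod_cast h3
    exact hsF.trans (h4.trans (card_le_card hsub))
  obtain ⟨J, hJinj, hJ⟩ := (Finset.all_card_le_biUnion_card_iff_exists_injective t).mp hall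
  refine ⟨Pw K n, fun i x => if h : x ∈ A then J (⟨x, h⟩, i) else x, ?_, ?_⟩
  · intro i x hx
    simp only [hx, dite_true]
    have h1 := hJ (⟨x, hx⟩, i)
    have h2 := (hgrow n {x} (by simp) (by simpa using hx)).2.1 h1
    obtain ⟨y, hy, _, t', ht', h3⟩ := mem_stpn K A n {x} _ h1
    rw [mem_singleton] at hy
    subst hy
    exact ⟨h2, t', ht', h3⟩
  · intro i i' x x' hx hx' h
    simp only [hx, hx', dite_true] at h
    have := hJinj h
    simp only [Prod.mk.injEq, Subtype.mk.injEq] at this
    exact ⟨this.2, this.1⟩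

theorem not_hasMeasure_of_lpar (A : Set G) (h : LPar A) : ¬ HasMeasure A := by
  classical
  rintro ⟨μ, h0, hadd, hinv, hA⟩
  obtain ⟨T, j, hj, hinj⟩ := h
  have key : ∀ (i : Bool) (T : Finset G) (C : Set G), C ⊆ A → (∀ x ∈ C, ∃ t ∈ T, j i x = t * x) →
      μ (j i '' C) = μ C := by
    intro i T
    induction T using Finset.induction_on with
    | empty =>
      intro C _ hC
      have : C = ∅ := by
        ext x
        simp only [Set.mem_empty_iff_false, iff_false]
        intro hx
        obtain ⟨t, ht, _⟩ := hC x hx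
        simp at ht
      rw [this, Set.image_empty]
    | insert t T ht ih =>
      intro C hCA hC
      let C1 := {x ∈ C | j i x = t * x}
      let C2 := {x ∈ C | j i x ≠ t * x}
      have hC12 : C = C1 ∪ C2 := by
        ext x
        simp only [C1, C2, Set.mem_union, Set.mem_ofPred_eq]
        tauto
      have hd : Disjoint C1 C2 := by
        rw [Set.disjoint_left]
        rintro x ⟨_, h1⟩ ⟨_, h2⟩
        exact h2 h1
      have hdi : Disjoint (j i '' C1) (j i '' C2) := by
        rw [Set.disjoint_left]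
        rintro _ ⟨x, hx, rfl⟩ ⟨y, hy, hxy⟩
        have := (hinj i i y x (hCA hy.1) (hCA hx.1) hxy).2
        subst this
        exact hy.2 hx.2
      have e1 : μ (j i '' C1) = μ C1 := by
        have : j i '' C1 = (fun x => t * x) '' C1 := by
          apply Set.image_congr
          intro x hx
          exact hx.2
        rw [this, hinv]
      have e2 : μ (j i '' C2) = μ C2 := by
        apply ih C2 (fun x hx => hCA hx.1)
        intro x hx
        obtain ⟨t', ht', h1⟩ := hC x hx.1
        rcases mem_insert.mp ht' with rfl | h2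
        · exact absurd h1 hx.2
        · exact ⟨t', h2, h1⟩
      calc μ (j i '' C) = μ (j i '' C1 ∪ j i '' C2) := by
            conv_lhs => rw [hC12, Set.image_union]
        _ = μ (j i '' C1) + μ (j i '' C2) := hadd _ _ hdi
        _ = μ C1 + μ C2 := by rw [e1, e2]
        _ = μ (C1 ∪ C2) := (hadd _ _ hd).symm
        _ = μ C := by rw [← hC12]
  have k1 := key true T A (le_refl _) (fun x hx => (hj true x hx).2)
  have k2 := key false T A (le_refl _) (fun x hx => (hj false x hx).2)
  have hdd : Disjoint (j true '' A) (j false '' A) := by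
    rw [Set.disjoint_left]
    rintro _ ⟨x, hx, rfl⟩ ⟨y, hy, hxy⟩
    have := (hinj false true y x hy hx hxy).1
    simp at this
  have hsub : j true '' A ∪ j false '' A ⊆ A := by
    rintro _ (⟨x, hx, rfl⟩ | ⟨x, hx, rfl⟩)
    · exact (hj true x hx).1
    · exact (hj false x hx).1
  have h2 : μ (j true '' A ∪ j false '' A) = 2 := by
    rw [hadd _ _ hdd, k1, k2, hA]; norm_num
  have h3 : μ A = μ (j true '' A ∪ j false '' A) + μ (A \ (j true '' A ∪ j false '' A)) := by
    rw [← hadd _ _ Set.disjoint_sdiff_right, Set.union_sdiff_cancel hsub]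
  rw [hA, h2] at h3
  have h4 : (2 : ENNReal) ≤ 1 := by rw [h3]; exact le_self_add
  norm_num at h4

end Pool.Agent.N485.BT
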