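import Mathlib
import Pool.Agent.N485.BT.Tarski

/-! # An invariant measure from the Foelner condition -/

set_option autoImplicit false

namespace Pool.Agent.N485.BT

open Filter Finset Topology

variable {G : Type*} [Group G]

theorem exists_mean (A : Set G) (hFC : FC A) :
    ∃ m : Set G → ℝ, (∀ B, 0 ≤ m B) ∧ m A = 1 ∧
      (∀ B C, Disjoint B C → m (B ∪ C) = m B + m C) ∧
      (∀ (g : G) (B : Set G), B ⊆ A → (fun x => g * x) '' B ⊆ A →
        m ((fun x => g * x) '' B) ≤ m B) := by
  classical
  have hch : ∀ i : Finset G × ℕ, ∃ F : Finset G, F.Nonempty ∧ (F : Set G) ⊆ A ∧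
      ((stp (insert 1 i.1) A F).card : ℝ) < (1 + 1 / ((i.2 : ℝ) + 1)) * F.card :=
    fun i => hFC _ _ (by positivity)
  choose F hFne hFA hFc using hch
  let 𝒰 : Ultrafilter (Finset G × ℕ) := Ultrafilter.of atTop
  have h𝒰 : (𝒰 : Filter (Finset G × ℕ)) ≤ atTop := Ultrafilter.of_le atTop
  let r : Set G → (Finset G × ℕ) → ℝ := fun B i => ((F i).filter (· ∈ B)).card / (F i).card
  have hpos : ∀ i, (0 : ℝ) < (F i).card := fun i => by exact_mod_cast (hFne i).card_pos
  have hr01 : ∀ B i, r B i ∈ Set.Icc (0 : ℝ) 1 := by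
    intro B i
    refine ⟨by positivity, ?_⟩
    rw [div_le_one (hpos i)]
    exact_mod_cast card_filter_le _ _
  have hlim : ∀ B, ∃ x, Tendsto (r B) 𝒰 (𝓝 x) := by
    intro B
    obtain ⟨x, _, hx⟩ := isCompact_Icc.ultrafilter_le_nhds (𝒰.map (r B)) (by
      rw [le_principal_iff, Ultrafilter.coe_map, Filter.mem_map]
      exact Filter.mem_of_superset Filter.univ_mem (fun i _ => hr01 B i))
    exact ⟨x, hx⟩
  choose m hm using hlim
  refine ⟨m, ?_, ?_, ?_, ?_⟩
  · intro B
    exact ge_of_tendsto (hm B) (Eventually.of_forall (fun i => (hr01 B i).1))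
  · have h1 : r A = fun _ => 1 := by
      funext i
      have : (F i).filter (· ∈ A) = F i := by
        apply filter_true_of_mem
        intro x hx
        exact hFA i hx
      simp only [r, this]
      exact div_self (hpos i).ne'
    have h2 := hm A
    rw [h1] at h2
    exact tendsto_nhds_unique h2 tendsto_const_nhds
  · intro B C hBC
    have h1 : r (B ∪ C) = fun i => r B i + r C i := by
      funext i
      simp only [r]
      rw [← add_div]
      congr 1
      have hd : Disjoint ((F i).filter (· ∈ B)) ((F i).filter (· ∈ C)) := by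
        rw [Finset.disjoint_left]
        intro x hx hx'
        exact Set.disjoint_left.mp hBC (mem_filter.mp hx).2 (mem_filter.mp hx').2
      rw [← Nat.cast_add, ← card_union_of_disjoint hd]
      congr 2
      ext x
      simp only [mem_filter, Set.mem_union, mem_union]
      tauto
    have h2 := hm (B ∪ C)
    rw [h1] at h2
    exact tendsto_nhds_unique h2 ((hm B).add (hm C))
  · intro g B hB hgB
    have hev : ∀ᶠ i in (𝒰 : Filter (Finset G × ℕ)), r ((fun x => g * x) '' B) i ≤
        r B i + 1 / ((i.2 : ℝ) + 1) := by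
      apply h𝒰
      filter_upwards [eventually_ge_atTop (({g⁻¹} : Finset G), (0 : ℕ))] with i hi
      have hgi : g⁻¹ ∈ i.1 := hi.1 (mem_singleton_self _)
      have hFs : F i ⊆ stp (insert 1 i.1) A (F i) := by
        intro x hx
        rw [mem_stp]
        exact ⟨hFA i hx, 1, mem_insert_self _ _, x, hx, by simp⟩
      have hcard : ((F i).filter (· ∈ (fun x => g * x) '' B)).card ≤
          ((F i).filter (· ∈ B)).card + (stp (insert 1 i.1) A (F i) \ F i).card := by
        rw [← card_union_of_disjoint (by
          rw [Finset.disjoint_left]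
          intro x hx hx'
          exact (Finset.mem_sdiff.mp hx').2 (mem_filter.mp hx).1)]
        apply card_le_card_of_injOn (fun x => g⁻¹ * x)
        · intro x hx
          rw [mem_coe, mem_filter] at hx
          obtain ⟨hxF, b, hb, rfl⟩ := hx
          simp only [inv_mul_cancel_left, coe_union, Set.mem_union, mem_coe, mem_filter,
            Finset.mem_sdiff]
          by_cases hbF : b ∈ F i
          · left; exact ⟨hbF, hb⟩
          · right
            refine ⟨?_, hbF⟩
            rw [mem_stp]
            exact ⟨hB hb, g⁻¹, mem_insert_of_mem hgi, g * b, hxF, by simp⟩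
        · intro x _ y _ h
          exact mul_left_cancel h
      have hsd : ((stp (insert 1 i.1) A (F i) \ F i).card : ℝ) ≤
          1 / ((i.2 : ℝ) + 1) * (F i).card := by
        have h1 : (stp (insert 1 i.1) A (F i) \ F i).card + (F i).card =
            (stp (insert 1 i.1) A (F i)).card := card_sdiff_add_card_eq_card hFs
        have h2 : ((stp (insert 1 i.1) A (F i) \ F i).card : ℝ) + (F i).card =
            (stp (insert 1 i.1) A (F i)).card := by exact_mod_cast h1
        have h3 := hFc i
        linarith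
      simp only [r]
      rw [div_add' _ _ _ (hpos i).ne']
      gcongr
      calc (((F i).filter (· ∈ (fun x => g * x) '' B)).card : ℝ) ≤
          ((F i).filter (· ∈ B)).card + (stp (insert 1 i.1) A (F i) \ F i).card := by
            exact_mod_cast hcard
        _ ≤ _ := by linarith
    have hz : Tendsto (fun i : Finset G × ℕ => 1 / ((i.2 : ℝ) + 1)) 𝒰 (𝓝 0) := by
      have h1 : Tendsto (fun i : Finset G × ℕ => i.2) atTop atTop := by
        rw [tendsto_atTop]
        intro b
        filter_upwards [eventually_ge_atTop ((∅ : Finset G), b)] with i hi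
        exact hi.2
      exact (tendsto_one_div_add_atTop_nhds_zero_nat.comp h1).mono_left h𝒰
    have h2 := (hm B).add hz
    rw [add_zero] at h2
    exact le_of_tendsto_of_tendsto (hm _) h2 hev

/-- the piece -/
def pc (A : Set G) (k : G → G) (g : G) (C : Set G) : Set G :=
  {y | y ∈ A ∧ g⁻¹ * y ∈ C ∧ k (g⁻¹ * y) = g}

theorem hasMeasure_of_mean (A : Set G) (m : Set G → ℝ) (hm0 : ∀ B, 0 ≤ m B) (hmA : m A = 1)
    (hadd : ∀ B C, Disjoint B C → m (B ∪ C) = m B + m C)
    (hinv : ∀ (g : G) (B : Set G), B ⊆ A → (fun x => g * x) '' B ⊆ A →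
        m ((fun x => g * x) '' B) ≤ m B) : HasMeasure A := by
  classical
  have hemp : m ∅ = 0 := by
    have := hadd ∅ ∅ (by simp)
    simp only [Set.union_empty] at this
    linarith
  have hmono : ∀ B C, B ⊆ C → m B ≤ m C := by
    intro B C h
    have := hadd B (C \ B) Set.disjoint_sdiff_right
    rw [Set.union_sdiff_cancel h] at this
    linarith [hm0 (C \ B)]
  let Sm : Finset G → (G → G) → Set G → ENNReal :=
    fun K k C => ∑ g ∈ K, ENNReal.ofReal (m (pc A k g C))
  let μ : Set G → ENNReal := fun C => ⨆ (K : Finset G) (k : G → G), Sm K k C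
  have hSadd : ∀ K k B C, Disjoint B C → Sm K k (B ∪ C) = Sm K k B + Sm K k C := by
    intro K k B C hd
    simp only [Sm]
    rw [← Finset.sum_add_distrib]
    apply Finset.sum_congr rfl
    intro g _
    rw [← ENNReal.ofReal_add (hm0 _) (hm0 _), ← hadd]
    · congr 2
      ext y
      simp only [pc, Set.mem_union, Set.mem_ofPred_eq]
      tauto
    · rw [Set.disjoint_left]
      rintro y ⟨_, h1, _⟩ ⟨_, h2, _⟩
      exact Set.disjoint_left.mp hd h1 h2
  have hSmonoK : ∀ K K' k C, K ⊆ K' → Sm K k C ≤ Sm K' k C := by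
    intro K K' k C h
    exact Finset.sum_le_sum_of_subset h
  have hScongr : ∀ K k k' C, (∀ x ∈ C, k x = k' x) → Sm K k C = Sm K k' C := by
    intro K k k' C h
    simp only [Sm]
    apply Finset.sum_congr rfl
    intro g _
    congr 2
    ext y
    simp only [pc, Set.mem_ofPred_eq]
    constructor
    · rintro ⟨h1, h2, h3⟩
      exact ⟨h1, h2, by rw [← h _ h2]; exact h3⟩
    · rintro ⟨h1, h2, h3⟩
      exact ⟨h1, h2, by rw [h _ h2]; exact h3⟩
  have hle : ∀ K k C, Sm K k C ≤ μ C := by
    intro K k C
    exact le_iSup₂_of_le K k (le_refl _)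
  have htrans : ∀ (h : G) K k C, ∃ K' k', Sm K k ((fun x => h * x) '' C) = Sm K' k' C := by
    intro h K k C
    refine ⟨K.image (fun g => g * h), fun x => k (h * x) * h, ?_⟩
    simp only [Sm]
    rw [Finset.sum_image (by intro x _ y _ hxy; exact mul_right_cancel hxy)]
    apply Finset.sum_congr rfl
    intro g _
    congr 2
    ext y
    simp only [pc, Set.mem_ofPred_eq, Set.mem_image, mul_inv_rev]
    constructor
    · rintro ⟨h1, ⟨x, hx, hxy⟩, h3⟩
      have hx' : x = h⁻¹ * g⁻¹ * y := by
        rw [mul_assoc, ← hxy]; simp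
      refine ⟨h1, by rw [← hx']; exact hx, ?_⟩
      rw [mul_assoc h⁻¹, mul_inv_cancel_left, h3]
    · rintro ⟨h1, h2, h3⟩
      refine ⟨h1, ⟨h⁻¹ * g⁻¹ * y, h2, by rw [mul_assoc h⁻¹, mul_inv_cancel_left]⟩, ?_⟩
      rw [mul_assoc h⁻¹, mul_inv_cancel_left] at h3
      exact mul_right_cancel h3
  have hμle : ∀ (h : G) C, μ ((fun x => h * x) '' C) ≤ μ C := by
    intro h C
    apply iSup₂_le
    intro K k
    obtain ⟨K', k', he⟩ := htrans h K k C
    rw [he]
    exact hle K' k' C
  have hsum1 : ∀ (K : Finset G) (E : G → Set G), (∀ g ∈ K, E g ⊆ A) →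
      (∀ g ∈ K, ∀ g' ∈ K, g ≠ g' → Disjoint (E g) (E g')) → ∑ g ∈ K, m (E g) ≤ 1 := by
    intro K E hE hd
    have key : ∀ K' : Finset G, K' ⊆ K → ∑ g ∈ K', m (E g) = m (⋃ g ∈ K', E g) := by
      intro K'
      induction K' using Finset.induction_on with
      | empty => intro _; simp [hemp]
      | insert a K' ha ih =>
        intro hK'
        rw [Finset.sum_insert ha, ih (fun x hx => hK' (mem_insert_of_mem hx)), ← hadd]
        · congr 1
          ext x
          simp
        · rw [Set.disjoint_left]
          intro x hx hx'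
          simp only [Set.mem_iUnion] at hx'
          obtain ⟨g, hg, hxg⟩ := hx'
          have hne : a ≠ g := by rintro rfl; exact ha hg
          exact Set.disjoint_left.mp (hd a (hK' (mem_insert_self _ _)) g
            (hK' (mem_insert_of_mem hg)) hne) hx hxg
    rw [key K (le_refl _), ← hmA]
    apply hmono
    intro x hx
    simp only [Set.mem_iUnion] at hx
    obtain ⟨g, hg, hxg⟩ := hx
    exact hE g hg hxg
  refine ⟨μ, ?_, ?_, ?_, ?_⟩
  · have : ∀ K k, Sm K k ∅ = 0 := by
      intro K k
      simp only [Sm]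
      apply Finset.sum_eq_zero
      intro g _
      have : pc A k g ∅ = ∅ := by
        ext y; simp [pc]
      rw [this, hemp]; simp
    simp only [μ, this]
    simp
  · intro B C hBC
    apply le_antisymm
    · apply iSup₂_le
      intro K k
      rw [hSadd K k B C hBC]
      exact add_le_add (hle K k B) (hle K k C)
    · have hkey : ∀ K1 k1 K2 k2, Sm K1 k1 B + Sm K2 k2 C ≤ μ (B ∪ C) := by
        intro K1 k1 K2 k2
        let k : G → G := fun x => if x ∈ B then k1 x else k2 x
        have e1 : Sm (K1 ∪ K2) k1 B = Sm (K1 ∪ K2) k B := by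
          apply hScongr
          intro x hx
          simp [k, hx]
        have e2 : Sm (K1 ∪ K2) k2 C = Sm (K1 ∪ K2) k C := by
          apply hScongr
          intro x hx
          have : x ∉ B := fun h => Set.disjoint_left.mp hBC h hx
          simp [k, this]
        calc Sm K1 k1 B + Sm K2 k2 C ≤ Sm (K1 ∪ K2) k1 B + Sm (K1 ∪ K2) k2 C :=
              add_le_add (hSmonoK _ _ _ _ subset_union_left) (hSmonoK _ _ _ _ subset_union_right)
          _ = Sm (K1 ∪ K2) k (B ∪ C) := by rw [e1, e2, hSadd _ _ _ _ hBC]
          _ ≤ _ := hle _ _ _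
      have h1 : ∀ K2 k2, μ B + Sm K2 k2 C ≤ μ (B ∪ C) := by
        intro K2 k2
        simp only [μ]
        rw [ENNReal.iSup_add]
        apply iSup_le
        intro K1
        rw [ENNReal.iSup_add]
        apply iSup_le
        intro k1
        exact hkey K1 k1 K2 k2
      show μ B + (⨆ (K : Finset G) (k : G → G), Sm K k C) ≤ μ (B ∪ C)
      rw [ENNReal.add_iSup]
      apply iSup_le
      intro K2
      rw [ENNReal.add_iSup]
      apply iSup_le
      intro k2
      exact h1 K2 k2
  · intro g B
    apply le_antisymm (hμle g B)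
    have h1 := hμle g⁻¹ ((fun x => g * x) '' B)
    rw [Set.image_image] at h1
    simpa using h1
  · apply le_antisymm
    · apply iSup₂_le
      intro K k
      have h1 : ∀ g ∈ K, m (pc A k g A) ≤ m {x | x ∈ A ∧ g * x ∈ A ∧ k x = g} := by
        intro g _
        have h2 : pc A k g A = (fun x => g * x) '' {x | x ∈ A ∧ g * x ∈ A ∧ k x = g} := by
          ext y
          simp only [pc, Set.mem_ofPred_eq, Set.mem_image]
          constructor
          · rintro ⟨h1, h2, h3⟩
            exact ⟨g⁻¹ * y, ⟨h2, by simpa using h1, h3⟩, by simp⟩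
          · rintro ⟨x, ⟨h1, h2, h3⟩, rfl⟩
            exact ⟨h2, by simpa using h1, by simpa using h3⟩
        rw [h2]
        apply hinv
        · intro x hx; exact hx.1
        · rintro _ ⟨x, hx, rfl⟩
          exact hx.2.1
      have h2 := hsum1 K (fun g => {x | x ∈ A ∧ g * x ∈ A ∧ k x = g})
        (fun g _ x hx => hx.1) (by
          intro g _ g' _ hne
          rw [Set.disjoint_left]
          rintro x ⟨_, _, h3⟩ ⟨_, _, h4⟩
          exact hne (h3.symm.trans h4))
      simp only [Sm]
      rw [← ENNReal.ofReal_sum_of_nonneg (fun g _ => hm0 _), ← ENNReal.ofReal_one]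
      exact ENNReal.ofReal_le_ofReal ((Finset.sum_le_sum h1).trans h2)
    · have h1 := hle {1} (fun _ => 1) A
      refine le_trans ?_ h1
      simp only [Sm, Finset.sum_singleton]
      have : pc A (fun _ => 1) 1 A = A := by
        ext y; simp [pc]
      rw [this, hmA]
      simp

theorem hasMeasure_or_lpar (A : Set G) : HasMeasure A ∨ LPar A := by
  by_cases h : FC A
  · left
    obtain ⟨m, h0, h1, h2, h3⟩ := exists_mean A h
    exact hasMeasure_of_mean A m h0 h1 h2 h3
  · right
    exact lpar_of_not_FC A h

end Pool.Agent.N485.BT
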