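import Mathlib

/-! # Paradoxical subsets -/

set_option autoImplicit false

namespace Pool.Agent.N485.BT

/-- `A` is a paradoxical subset of `X` with respect to maps moving the points by a bounded
distance: `x ↦ j true x` and `x ↦ j false x` are injections of `A` into `A` with disjoint ranges
which move every point of `A` by at most `R`. -/
def BddParadoxical {X : Type*} (D : X → X → ℝ) (A : Set X) : Prop :=
  ∃ (R : ℝ) (j : Bool → X → X), (∀ i, ∀ x ∈ A, j i x ∈ A ∧ D x (j i x) ≤ R) ∧
    ∀ i i' x x', x ∈ A → x' ∈ A → j i x = j i' x' → i = i' ∧ x = x'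

/-- The number of the points of `A` in a ball of radius one is bounded. -/
def LocFin {X : Type*} (D : X → X → ℝ) (A : Set X) : Prop :=
  ∃ m : ℕ, ∀ x : X, {a : X | a ∈ A ∧ D a x ≤ 1}.encard ≤ m

/-- `A` is a paradoxical subset of the group `G`: it contains two disjoint subsets (the images of
`j true` and `j false`), each of which is equidecomposable with `A` by finitely many right
translations (by elements of the finite set `T`). -/
def Paradoxical {G : Type*} [Group G] (A : Set G) : Prop :=
  ∃ (T : Finset G) (j : Bool → G → G), (∀ i, ∀ x ∈ A, j i x ∈ A ∧ ∃ t ∈ T, j i x = x * t) ∧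
    ∀ i i' x x', x ∈ A → x' ∈ A → j i x = j i' x' → i = i' ∧ x = x'

/-- A group is supramenable if it has no nonempty paradoxical subset. -/
def Supramenable (G : Type*) [Group G] : Prop := ∀ A : Set G, A.Nonempty → ¬ Paradoxical A

end Pool.Agent.N485.BT
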