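import Mathlib

/-! # The infinite rooted binary tree and its maps to spaces

The vertices of the binary tree are the lists of booleans; the children of `u` are `true :: u` and
`false :: u`. -/

set_option autoImplicit false

namespace Pool.Agent.N485.BT

open Filter

/-- The infinite rooted binary tree (as in the frozen statements of MP_b0184e_gt). -/
def treeG : SimpleGraph (List Bool) := SimpleGraph.fromRel (fun p q => ∃ b : Bool, p = b :: q)

/-- The path metric of the binary tree. -/
noncomputable def tdist (u v : List Bool) : ℕ := treeG.dist u v

variable {X : Type*}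

/-- `f` is a coarse embedding of the binary tree into `X` with the distance function `D`. -/
def CoarseEmb (D : X → X → ℝ) (f : List Bool → X) : Prop :=
  ∃ rhoL rhoU : ℝ → ℝ, Tendsto rhoL atTop atTop ∧ ∀ u v : List Bool,
    rhoL (tdist u v) ≤ D (f u) (f v) ∧ D (f u) (f v) ≤ rhoU (tdist u v)

/-- `f` is a quasi-isometric embedding of the binary tree into `X` with the distance
function `D`. -/
def QIEmb (D : X → X → ℝ) (f : List Bool → X) : Prop :=
  ∃ a b : ℝ, 0 < a ∧ ∀ u v : List Bool,
    a * tdist u v - b ≤ D (f u) (f v) ∧ D (f u) (f v) ≤ b * tdist u v + b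

/-- `f` is a regular map: it is Lipschitz, and the number of the vertices with image in a ball of
radius one is bounded. -/
def RegularMap (D : X → X → ℝ) (f : List Bool → X) : Prop :=
  (∃ L : ℝ, ∀ u v : List Bool, D (f u) (f v) ≤ L * tdist u v) ∧
    ∃ m : ℕ, ∀ x : X, {u : List Bool | D (f u) x ≤ 1}.encard ≤ m

/-- The Cayley graph of a group with respect to a finite set. -/
def cay {G : Type*} [Group G] (S : Finset G) : SimpleGraph G :=
  SimpleGraph.fromRel (fun g h => ∃ s ∈ S, h = g * s)

/-- The word distance. -/
noncomputable def wordDist {G : Type*} [Group G] (S : Finset G) (g h : G) : ℝ := (cay S).dist g h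

end Pool.Agent.N485.BT
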