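import Mathlib

/-! Counting lemma (Rosenfeld's method) for avoiding partial assignments. -/

set_option autoImplicit false

namespace Pool.Agent.N485.BT

open Finset

section fin
variable {Z A ι : Type*} [Fintype Z] [DecidableEq Z] [Fintype A] [DecidableEq A]

/-- `c` avoids the events of `I` supported in `Q`. -/
def Good (I : Finset ι) (P : ι → Finset Z) (val : ι → Z → A) (Q : Finset Z) (c : Z → A) : Prop :=
  ∀ i ∈ I, P i ⊆ Q → ∃ z ∈ P i, c z ≠ val i z

open Classical in
/-- the number of the assignments avoiding the events of `I` supported in `Q` -/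
noncomputable def cnt (I : Finset ι) (P : ι → Finset Z) (val : ι → Z → A) (Q : Finset Z) : ℕ :=
  (univ.filter (fun c : Z → A => Good I P val Q c)).card

open Classical in
theorem indep (I : Finset ι) (P : ι → Finset Z) (val : ι → Z → A) (R S : Finset Z)
    (hRS : Disjoint R S) (v : Z → A) :
    (univ.filter (fun c : Z → A => Good I P val R c ∧ ∀ z ∈ S, c z = v z)).card
      * Fintype.card A ^ S.card ≤ cnt I P val R := by
  classical
  have h1 : Fintype.card A ^ S.card = (univ : Finset (S → A)).card := by
    rw [Finset.card_univ, Fintype.card_fun, Fintype.card_coe]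
  rw [h1, ← Finset.card_product, cnt]
  apply Finset.card_le_card_of_injOn
    (fun x : (Z → A) × (S → A) => fun z => if h : z ∈ S then x.2 ⟨z, h⟩ else x.1 z)
  · intro x hx
    simp only [coe_product, coe_filter, mem_univ, true_and, coe_univ, Set.mem_prod,
      Set.mem_univ, and_true, Set.mem_ofPred_eq] at hx ⊢
    intro i hi hP
    obtain ⟨z, hz, hne⟩ := hx.1 i hi hP
    refine ⟨z, hz, ?_⟩
    have hzS : z ∉ S := fun h => (Finset.disjoint_left.mp hRS (hP hz)) h
    simp only [hzS, dite_false]
    exact hne
  · intro x hx y hy hxy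
    simp only [coe_product, coe_filter, mem_univ, true_and, coe_univ, Set.mem_prod,
      Set.mem_univ, and_true, Set.mem_ofPred_eq] at hx hy
    have h2 : ∀ z, (if h : z ∈ S then x.2 ⟨z, h⟩ else x.1 z)
        = (if h : z ∈ S then y.2 ⟨z, h⟩ else y.1 z) := fun z => congrFun hxy z
    apply Prod.ext
    · funext z
      by_cases hz : z ∈ S
      · rw [hx.2 z hz, hy.2 z hz]
      · have := h2 z
        simpa [hz] using this
    · funext z
      have := h2 z.1
      simpa [z.2] using this

theorem cnt_anti (I : Finset ι) (P : ι → Finset Z) (val : ι → Z → A) {Q Q' : Finset Z}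
    (h : Q ⊆ Q') : cnt I P val Q' ≤ cnt I P val Q := by
  classical
  apply Finset.card_le_card
  intro c hc
  simp only [mem_filter, mem_univ, true_and] at hc ⊢
  intro i hi hP
  exact hc i hi (hP.trans h)

open Classical in
theorem step (I : Finset ι) (P : ι → Finset Z) (val : ι → Z → A)
    (hA : 0 < Fintype.card A)
    (hsum : ∀ z, ∑ i ∈ I.filter (fun i => z ∈ P i),
      ((2 : ℝ) / Fintype.card A) ^ (P i).card ≤ 1) :
    ∀ (n : ℕ) (Q : Finset Z), Q.card = n → ∀ z ∉ Q,
      (cnt I P val Q : ℝ) ≤ 2 * cnt I P val (insert z Q) := by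
  classical
  intro n
  induction n using Nat.strong_induction_on with
  | _ n ih =>
  intro Q hQ z hz
  set q : ℝ := (Fintype.card A : ℝ) with hq
  have hq0 : 0 < q := by rw [hq]; exact_mod_cast hA
  -- chain of induction hypotheses
  have chain : ∀ (T R : Finset Z), Disjoint T R → (R ∪ T).card < n →
      (cnt I P val R : ℝ) ≤ 2 ^ T.card * cnt I P val (R ∪ T) ∨ True := by
    intro T R _ _; right; trivial
  have chain2 : ∀ (T : Finset Z) (R : Finset Z), Disjoint T R → (R ∪ T).card ≤ n →
      (cnt I P val R : ℝ) ≤ 2 ^ T.card * cnt I P val (R ∪ T) := by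
    intro T
    induction T using Finset.induction_on with
    | empty => intro R _ _; simp
    | insert a T ha ihT =>
      intro R hd hc
      have haR : a ∉ R := by
        intro h
        exact (Finset.disjoint_left.mp hd (mem_insert_self a T)) h
      have hd' : Disjoint T R := by
        rw [Finset.disjoint_left] at hd ⊢
        intro x hx; exact hd (mem_insert_of_mem hx)
      have haRT : a ∉ R ∪ T := by
        rw [mem_union]; rintro (h | h)
        · exact haR h
        · exact ha h
      have heq : R ∪ insert a T = insert a (R ∪ T) := by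
        ext x; simp only [mem_union, mem_insert]; tauto
      rw [heq, card_insert_of_notMem haRT] at hc
      have h1 := ihT R hd' (by omega)
      have h2 := ih (R ∪ T).card (by omega) (R ∪ T) rfl a haRT
      rw [heq, card_insert_of_notMem ha, pow_succ]
      calc (cnt I P val R : ℝ) ≤ 2 ^ T.card * cnt I P val (R ∪ T) := h1
        _ ≤ 2 ^ T.card * (2 * cnt I P val (insert a (R ∪ T))) := by gcongr
        _ = _ := by ring
  -- violating assignments
  set J := I.filter (fun i => z ∈ P i ∧ P i ⊆ insert z Q) with hJ
  have hcov : (univ.filter (fun c : Z → A => Good I P val Q c)) ⊆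
      (univ.filter (fun c : Z → A => Good I P val (insert z Q) c)) ∪
      J.biUnion (fun i => univ.filter (fun c : Z → A => Good I P val (Q \ P i) c ∧
        ∀ y ∈ P i, c y = val i y)) := by
    intro c hc
    simp only [mem_filter, mem_univ, true_and] at hc
    by_cases hg : Good I P val (insert z Q) c
    · simp [hg]
    · rw [mem_union]; right
      unfold Good at hg
      push Not at hg
      obtain ⟨i, hi, hP, hv⟩ := hg
      rw [mem_biUnion]
      have hzi : z ∈ P i := by
        by_contra hzi
        have hPQ : P i ⊆ Q := by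
          intro y hy
          rcases mem_insert.mp (hP hy) with h | h
          · exact absurd (h ▸ hy) hzi
          · exact h
        obtain ⟨y, hy, hne⟩ := hc i hi hPQ
        exact hne (hv y hy)
      refine ⟨i, by simp [hJ, hi, hzi, hP], ?_⟩
      simp only [mem_filter, mem_univ, true_and]
      refine ⟨?_, hv⟩
      intro j hj hPj
      exact hc j hj (hPj.trans (sdiff_subset))
  have hcard : cnt I P val Q ≤ cnt I P val (insert z Q) +
      ∑ i ∈ J, (univ.filter (fun c : Z → A => Good I P val (Q \ P i) c ∧
        ∀ y ∈ P i, c y = val i y)).card := by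
    calc cnt I P val Q ≤ _ := Finset.card_le_card hcov
      _ ≤ _ := Finset.card_union_le _ _
      _ ≤ _ := by
        unfold cnt
        gcongr
        exact Finset.card_biUnion_le
  have hterm : ∀ i ∈ J, ((univ.filter (fun c : Z → A => Good I P val (Q \ P i) c ∧
        ∀ y ∈ P i, c y = val i y)).card : ℝ) ≤
        (1 / 2) * cnt I P val Q * (2 / q) ^ (P i).card := by
    intro i hi
    simp only [hJ, mem_filter] at hi
    obtain ⟨hiI, hzi, hPi⟩ := hi
    have h1 := indep I P val (Q \ P i) (P i) sdiff_disjoint (val i)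
    have h1' : ((univ.filter (fun c : Z → A => Good I P val (Q \ P i) c ∧
        ∀ y ∈ P i, c y = val i y)).card : ℝ) * q ^ (P i).card ≤ cnt I P val (Q \ P i) := by
      have := h1
      rw [hq]
      exact_mod_cast this
    have hsub : (P i).erase z ⊆ Q := by
      intro y hy
      rw [mem_erase] at hy
      rcases mem_insert.mp (hPi hy.2) with h | h
      · exact absurd h hy.1
      · exact h
    have heq : (Q \ P i) ∪ (P i).erase z = Q := by
      ext y
      simp only [mem_union, mem_sdiff, mem_erase]
      constructor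
      · rintro (⟨h, _⟩ | ⟨h1, h2⟩)
        · exact h
        · exact hsub (mem_erase.mpr ⟨h1, h2⟩)
      · intro hy
        by_cases hyP : y ∈ P i
        · right
          refine ⟨?_, hyP⟩
          rintro rfl
          exact hz hy
        · left; exact ⟨hy, hyP⟩
    have h2 := chain2 ((P i).erase z) (Q \ P i) (by
      rw [Finset.disjoint_left]
      intro y hy
      rw [mem_erase] at hy
      simp [hy.2]) (by rw [heq, hQ])
    rw [heq] at h2
    have hcz : (P i).card = ((P i).erase z).card + 1 := (card_erase_add_one hzi).symm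
    have hqp : 0 < q ^ (P i).card := pow_pos hq0 _
    have h3 : ((univ.filter (fun c : Z → A => Good I P val (Q \ P i) c ∧
        ∀ y ∈ P i, c y = val i y)).card : ℝ) ≤ cnt I P val (Q \ P i) / q ^ (P i).card := by
      rw [le_div_iff₀ hqp]; exact h1'
    calc _ ≤ (cnt I P val (Q \ P i) : ℝ) / q ^ (P i).card := h3
      _ ≤ (2 ^ ((P i).erase z).card * cnt I P val Q) / q ^ (P i).card := by gcongr
      _ = _ := by
        rw [div_pow, hcz, pow_succ 2]
        field_simp
  have hJsum : ∑ i ∈ J, ((2 : ℝ) / q) ^ (P i).card ≤ 1 := by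
    refine le_trans ?_ (hsum z)
    apply Finset.sum_le_sum_of_subset_of_nonneg
    · intro i hi
      simp only [hJ, mem_filter] at hi ⊢
      exact ⟨hi.1, hi.2.1⟩
    · intro i _ _
      positivity
  have hfin : (cnt I P val Q : ℝ) ≤ cnt I P val (insert z Q) + (1/2) * cnt I P val Q := by
    calc (cnt I P val Q : ℝ) ≤ cnt I P val (insert z Q) +
        ∑ i ∈ J, ((univ.filter (fun c : Z → A => Good I P val (Q \ P i) c ∧
        ∀ y ∈ P i, c y = val i y)).card : ℝ) := by exact_mod_cast hcard
      _ ≤ cnt I P val (insert z Q) + ∑ i ∈ J, (1 / 2) * cnt I P val Q * (2 / q) ^ (P i).card := by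
        gcongr with i hi
        exact hterm i hi
      _ = cnt I P val (insert z Q) + (1 / 2) * cnt I P val Q * ∑ i ∈ J, (2 / q) ^ (P i).card := by
        rw [Finset.mul_sum]
      _ ≤ cnt I P val (insert z Q) + (1 / 2) * cnt I P val Q * 1 := by gcongr
      _ = _ := by ring
  linarith

theorem exists_avoid_fin (I : Finset ι) (P : ι → Finset Z) (val : ι → Z → A)
    (hA : 0 < Fintype.card A) (hP : ∀ i ∈ I, (P i).Nonempty)
    (hsum : ∀ z, ∑ i ∈ I.filter (fun i => z ∈ P i),
      ((2 : ℝ) / Fintype.card A) ^ (P i).card ≤ 1) :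
    ∃ c : Z → A, ∀ i ∈ I, ∃ z ∈ P i, c z ≠ val i z := by
  classical
  have h : ∀ Q : Finset Z, 0 < cnt I P val Q := by
    intro Q
    induction Q using Finset.induction_on with
    | empty =>
      have : (univ.filter (fun c : Z → A => Good I P val ∅ c)) = univ := by
        ext c
        simp only [mem_filter, mem_univ, true_and, iff_true]
        intro i hi hPi
        obtain ⟨z, hz⟩ := hP i hi
        exact absurd (hPi hz) (by simp)
      unfold cnt
      rw [this, Finset.card_univ, Fintype.card_fun]
      exact pow_pos hA _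
    | insert a Q ha ih =>
      have h1 := step I P val hA (by
        intro z
        convert hsum z) Q.card Q rfl a ha
      have h2 : (0 : ℝ) < cnt I P val Q := by exact_mod_cast ih
      have h3 : (0 : ℝ) < cnt I P val (insert a Q) := by linarith
      exact_mod_cast h3
  have h1 := h univ
  unfold cnt at h1
  obtain ⟨c, hc⟩ := Finset.card_pos.mp h1
  simp only [mem_filter, mem_univ, true_and] at hc
  exact ⟨c, fun i hi => hc i hi (subset_univ _)⟩

end fin

section inf
variable {Z A ι : Type*} [DecidableEq Z] [Fintype A] [DecidableEq A]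

theorem exists_avoid (P : ι → Finset Z) (val : ι → Z → A)
    (hA : 0 < Fintype.card A) (hP : ∀ i, (P i).Nonempty)
    (hsum : ∀ z, ∀ J : Finset ι, (∀ i ∈ J, z ∈ P i) →
      ∑ i ∈ J, ((2 : ℝ) / Fintype.card A) ^ (P i).card ≤ 1) :
    ∃ c : Z → A, ∀ i, ∃ z ∈ P i, c z ≠ val i z := by
  classical
  letI : TopologicalSpace A := ⊥
  haveI : DiscreteTopology A := ⟨rfl⟩
  have hclosed : ∀ i, IsClosed {c : Z → A | ∃ z ∈ P i, c z ≠ val i z} := by
    intro i
    have : {c : Z → A | ∃ z ∈ P i, c z ≠ val i z}
        = ⋃ z ∈ P i, (fun c : Z → A => c z) ⁻¹' {a | a ≠ val i z} := by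
      ext c; simp
    rw [this]
    apply Set.Finite.isClosed_biUnion (Finset.finite_toSet (P i))
    intro z _
    exact IsClosed.preimage (continuous_apply z) (isClosed_discrete _)
  have hfinite : ∀ u : Finset ι, (Set.univ ∩ ⋂ i ∈ u, {c : Z → A | ∃ z ∈ P i, c z ≠ val i z}).Nonempty := by
    intro u
    let Z0 : Finset Z := u.biUnion P
    obtain ⟨a0⟩ : Nonempty A := Fintype.card_pos_iff.mp hA
    let P' : ι → Finset Z0 := fun i => univ.filter (fun z => z.1 ∈ P i)
    let val' : ι → Z0 → A := fun i z => val i z.1
    have hcard : ∀ i ∈ u, (P' i).card = (P i).card := by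
      intro i hi
      apply Finset.card_bij (fun z _ => z.1)
      · intro z hz
        simpa [P'] using hz
      · intro z _ y _ h
        exact Subtype.ext h
      · intro z hz
        exact ⟨⟨z, Finset.mem_biUnion.mpr ⟨i, hi, hz⟩⟩, by simp [P', hz], rfl⟩
    obtain ⟨c, hc⟩ := exists_avoid_fin u P' val' hA (by
      intro i hi
      rw [← Finset.card_pos, hcard i hi, Finset.card_pos]
      exact hP i) (by
      intro z
      have h1 := hsum z.1 (u.filter (fun i => z ∈ P' i)) (by
        intro i hi
        simp only [mem_filter, P', mem_univ, true_and] at hi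
        exact hi.2)
      refine le_trans (le_of_eq ?_) h1
      apply Finset.sum_congr rfl
      intro i hi
      rw [hcard i (Finset.mem_filter.mp hi).1])
    refine ⟨fun z => if h : z ∈ Z0 then c ⟨z, h⟩ else a0, Set.mem_univ _, ?_⟩
    simp only [Set.mem_iInter]
    intro i hi
    obtain ⟨z, hz, hne⟩ := hc i hi
    refine ⟨z.1, by simpa [P'] using hz, ?_⟩
    have : z.1 ∈ Z0 := z.2
    simpa [this, val'] using hne
  obtain ⟨c, hc⟩ := isCompact_univ.inter_iInter_nonempty _ hclosed hfinite
  refine ⟨c, fun i => ?_⟩
  have := hc.2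
  rw [Set.mem_iInter] at this
  exact this i

end inf

/-- The same with the events given as finite sets of pairs (variable, value). -/
theorem exists_avoid_pairs {Z A ι : Type*} [Fintype A]
    (S : ι → Finset (Z × A))
    (hA : 0 < Fintype.card A)
    (hfun : ∀ i, ∀ x ∈ S i, ∀ y ∈ S i, x.1 = y.1 → x.2 = y.2) (hne : ∀ i, (S i).Nonempty)
    (hsum : ∀ z : Z, ∀ J : Finset ι, (∀ i ∈ J, ∃ a, (z, a) ∈ S i) →
      ∑ i ∈ J, ((2 : ℝ) / Fintype.card A) ^ (S i).card ≤ 1) :
    ∃ c : Z → A, ∀ i, ∃ x ∈ S i, c x.1 ≠ x.2 := by
  classical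
  obtain ⟨a0⟩ : Nonempty A := Fintype.card_pos_iff.mp hA
  let P : ι → Finset Z := fun i => (S i).image Prod.fst
  let val : ι → Z → A := fun i z => if h : ∃ a, (z, a) ∈ S i then h.choose else a0
  have hval : ∀ i, ∀ x ∈ S i, val i x.1 = x.2 := by
    intro i x hx
    have h : ∃ a, (x.1, a) ∈ S i := ⟨x.2, hx⟩
    simp only [val, h, dite_true]
    exact hfun i (x.1, h.choose) h.choose_spec x hx rfl
  have hcard : ∀ i, (P i).card = (S i).card := by
    intro i
    apply Finset.card_image_of_injOn
    intro x hx y hy hxy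
    exact Prod.ext hxy (hfun i x hx y hy hxy)
  obtain ⟨c, hc⟩ := exists_avoid P val hA (fun i => (hne i).image _) (by
    intro z J hJ
    have h1 := hsum z J (by
      intro i hi
      have := hJ i hi
      simp only [P, mem_image] at this
      obtain ⟨x, hx, rfl⟩ := this
      exact ⟨x.2, hx⟩)
    refine le_trans (le_of_eq ?_) h1
    apply Finset.sum_congr rfl
    intro i _
    rw [hcard i])
  refine ⟨c, fun i => ?_⟩
  obtain ⟨z, hz, hne'⟩ := hc i
  simp only [P, mem_image] at hz
  obtain ⟨x, hx, rfl⟩ := hz
  exact ⟨x, hx, by rwa [hval i x hx] at hne'⟩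

end Pool.Agent.N485.BT
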