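import Mathlib
import Pool.Agent.N485.BT.Ros

/-! Pruning of the tree of lists. -/

set_option autoImplicit false

namespace Pool.Agent.N485.BT

open Finset

section lists
variable {α : Type*}

open Classical in
/-- lists of length at most `t` -/
noncomputable def Ls (α : Type*) [Fintype α] : ℕ → Finset (List α)
  | 0 => {[]}
  | (t + 1) => insert [] ((univ ×ˢ Ls α t).image (fun x : α × List α => x.1 :: x.2))

theorem mem_Ls [Fintype α] (t : ℕ) (l : List α) (h : l.length ≤ t) : l ∈ Ls α t := by
  classical
  induction t generalizing l with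
  | zero =>
    have : l = [] := List.length_eq_zero_iff.mp (by omega)
    simp [Ls, this]
  | succ t ih =>
    cases l with
    | nil => simp [Ls]
    | cons a l =>
      simp only [List.length_cons] at h
      rw [Ls, mem_insert]
      right
      rw [mem_image]
      exact ⟨(a, l), by simp [ih l (by omega)], rfl⟩

theorem card_Ls [Fintype α] (t : ℕ) : (Ls α t).card ≤ (Fintype.card α + 1) ^ t := by
  classical
  induction t with
  | zero => simp [Ls]
  | succ t ih =>
    rw [Ls]
    have h1 : 1 ≤ (Fintype.card α + 1) ^ t := Nat.one_le_pow _ _ (by omega)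
    calc _ ≤ ((univ ×ˢ Ls α t).image (fun x : α × List α => x.1 :: x.2)).card + 1 :=
          card_insert_le _ _
      _ ≤ (univ ×ˢ Ls α t).card + 1 := by gcongr; exact card_image_le
      _ = Fintype.card α * (Ls α t).card + 1 := by rw [card_product, card_univ]
      _ ≤ Fintype.card α * (Fintype.card α + 1) ^ t + 1 * (Fintype.card α + 1) ^ t := by
          gcongr; omega
      _ = _ := by rw [pow_succ]; ring

open Classical in
/-- the vertices `s ++ y.drop i` with `i ≤ h`, `|s| ≤ h` -/
noncomputable def Nb [Fintype α] (y : List α) (h : ℕ) : Finset (List α) :=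
  (range (h + 1) ×ˢ Ls α h).image (fun x => x.2 ++ y.drop x.1)

theorem mem_Nb [Fintype α] (y : List α) (h i : ℕ) (s : List α) (hi : i ≤ h) (hs : s.length ≤ h) :
    s ++ y.drop i ∈ Nb y h := by
  classical
  unfold Nb
  rw [mem_image]
  exact ⟨(i, s), by simp [mem_Ls h s hs]; omega, rfl⟩

theorem card_Nb [Fintype α] (y : List α) (h : ℕ) :
    (Nb y h).card ≤ (h + 1) * (Fintype.card α + 1) ^ h := by
  classical
  unfold Nb
  refine card_image_le.trans ?_
  rw [card_product, card_range]
  gcongr
  exact card_Ls h

end lists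

section events
variable {A : Type*}

/-- the pairs (edge variable, value) of the path from `w` to `p ++ w` -/
def T [DecidableEq A] : List (Bool × A) → List (Bool × A) → Finset ((List (Bool × A) × Bool) × A)
  | [], _ => ∅
  | (x :: t), w => insert ((t ++ w, x.1), x.2) (T t w)

theorem mem_T [DecidableEq A] (p w : List (Bool × A)) (y : List (Bool × A)) (b : Bool) (a : A) :
    ((y, b), a) ∈ T p w ↔ ∃ r t, p = r ++ (b, a) :: t ∧ y = t ++ w := by
  induction p with
  | nil => simp [T]
  | cons x p ih =>
    rw [T, mem_insert, ih]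
    constructor
    · rintro (h | ⟨r, t, h1, h2⟩)
      · simp only [Prod.mk.injEq] at h
        obtain ⟨⟨h1, h2⟩, h3⟩ := h
        refine ⟨[], p, ?_, h1⟩
        subst h2 h3
        simp
      · exact ⟨x :: r, t, by rw [h1]; rfl, h2⟩
    · rintro ⟨r, t, h1, h2⟩
      cases r with
      | nil =>
        simp only [List.nil_append, List.cons.injEq] at h1
        left
        rw [h2, ← h1.2, h1.1]
      | cons c r =>
        simp only [List.cons_append, List.cons.injEq] at h1
        right
        exact ⟨r, t, h1.2, h2⟩

theorem card_T [DecidableEq A] (p w : List (Bool × A)) : (T p w).card = p.length := by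
  induction p with
  | nil => simp [T]
  | cons x p ih =>
    rw [T, card_insert_of_notMem, ih, List.length_cons]
    rw [mem_T]
    rintro ⟨r, t, h1, h2⟩
    have h3 : p = t := List.append_cancel_right h2
    have : p.length = r.length + (t.length + 1) := by
      conv_lhs => rw [h1]
      simp
    rw [h3] at this
    omega

/-- the last letters of the two lists (if any) have different directions -/
def Div (p s : List (Bool × A)) : Prop :=
  ∀ x y, p.getLast? = some x → s.getLast? = some y → x.1 ≠ y.1

theorem Div.symm {p s : List (Bool × A)} (h : Div p s) : Div s p :=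
  fun x y hx hy => (h y x hy hx).symm

theorem not_div {p s r r' t : List (Bool × A)} {b : Bool} {a a' : A}
    (h1 : p = r ++ (b, a) :: t) (h2 : s = r' ++ (b, a') :: t) : ¬ Div p s := by
  intro h
  rcases List.eq_nil_or_concat t with ht | ⟨t', c, ht⟩
  · subst ht
    have := h (b, a) (b, a') (by rw [h1]; simp) (by rw [h2]; simp)
    exact this rfl
  · subst ht
    have := h c c (by rw [h1]; simp [List.getLast?_append, List.getLast?_cons]) (by rw [h2]; simp [List.getLast?_append, List.getLast?_cons])
    exact this rfl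

/-- an event: two vertices `p ++ w`, `s ++ w` with meet `w` -/
structure Ev (A : Type*) (B : ℕ → List (Bool × A) → Finset (List (Bool × A))) (n0 : ℕ) where
  w : List (Bool × A)
  p : List (Bool × A)
  s : List (Bool × A)
  hdiv : Div p s
  hn : n0 ≤ p.length + s.length
  hB : s ++ w ∈ B (p.length + s.length) (p ++ w)
  hB' : p ++ w ∈ B (p.length + s.length) (s ++ w)

variable [DecidableEq A] {B : ℕ → List (Bool × A) → Finset (List (Bool × A))} {n0 : ℕ}

def Ev.S (i : Ev A B n0) : Finset ((List (Bool × A) × Bool) × A) := T i.p i.w ∪ T i.s i.w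

theorem Ev.card_S (i : Ev A B n0) : i.S.card = i.p.length + i.s.length := by
  rw [Ev.S, card_union_of_disjoint, card_T, card_T]
  rw [Finset.disjoint_left]
  rintro ⟨⟨y, b⟩, a⟩ h1 h2
  rw [mem_T] at h1 h2
  obtain ⟨r, t, h1, h3⟩ := h1
  obtain ⟨r', t', h2, h4⟩ := h2
  have : t = t' := List.append_cancel_right (h3.symm.trans h4)
  subst this
  exact not_div h1 h2 i.hdiv

theorem Ev.functional (i : Ev A B n0) : ∀ x ∈ i.S, ∀ y ∈ i.S, x.1 = y.1 → x.2 = y.2 := by
  rintro ⟨⟨y, b⟩, a⟩ hx ⟨⟨y', b'⟩, a'⟩ hy h
  simp only [Prod.mk.injEq] at h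
  obtain ⟨rfl, rfl⟩ := h
  simp only
  rw [Ev.S, mem_union, mem_T, mem_T] at hx hy
  have same : ∀ q : List (Bool × A), (∃ r t, q = r ++ (b, a) :: t ∧ y = t ++ i.w) →
      (∃ r t, q = r ++ (b, a') :: t ∧ y = t ++ i.w) → a = a' := by
    rintro q ⟨r, t, h1, h3⟩ ⟨r', t', h2, h4⟩
    have : t = t' := List.append_cancel_right (h3.symm.trans h4)
    subst this
    rw [h1] at h2
    have := List.append_inj_right' h2 (by simp)
    simp only [List.cons.injEq, Prod.mk.injEq, true_and, and_true] at this
    exact this
  have diff : ∀ q q' : List (Bool × A), Div q q' → (∃ r t, q = r ++ (b, a) :: t ∧ y = t ++ i.w) →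
      (∃ r t, q' = r ++ (b, a') :: t ∧ y = t ++ i.w) → a = a' := by
    rintro q q' hd ⟨r, t, h1, h3⟩ ⟨r', t', h2, h4⟩
    have : t = t' := List.append_cancel_right (h3.symm.trans h4)
    subst this
    exact absurd hd (not_div h1 h2)
  rcases hx with hx | hx <;> rcases hy with hy | hy
  · exact same _ hx hy
  · exact diff _ _ i.hdiv hx hy
  · exact diff _ _ i.hdiv.symm hx hy
  · exact same _ hx hy

theorem Ev.near [Fintype A] (i : Ev A B n0) (y : List (Bool × A)) (b : Bool) (a : A) (h : ((y, b), a) ∈ i.S) :
    i.p ++ i.w ∈ Nb y ((i.p.length + i.s.length) / 2) ∨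
      i.s ++ i.w ∈ Nb y ((i.p.length + i.s.length) / 2) := by
  have key : ∀ p s w : List (Bool × A), (∃ r t, p = r ++ (b, a) :: t ∧ y = t ++ w) →
      p ++ w ∈ Nb y ((p.length + s.length) / 2) ∨ s ++ w ∈ Nb y ((p.length + s.length) / 2) := by
    rintro p s w ⟨r, t, h1, h2⟩
    have hl : p.length = r.length + (t.length + 1) := by rw [h1]; simp
    by_cases hc : r.length + 1 ≤ (p.length + s.length) / 2
    · left
      have : p ++ w = (r ++ [(b, a)]) ++ y.drop 0 := by rw [h1, h2]; simp
      rw [this]
      exact mem_Nb y _ 0 _ (by omega) (by simpa using hc)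
    · right
      have : s ++ w = s ++ y.drop t.length := by rw [h2]; simp
      rw [this]
      exact mem_Nb y _ _ _ (by omega) (by omega)
  rw [Ev.S, mem_union, mem_T, mem_T] at h
  rcases h with h | h
  · exact key _ _ _ h
  · rcases key _ i.p _ h with h1 | h1
    · right; rw [add_comm]; exact h1
    · left; rw [add_comm]; exact h1

end events

end Pool.Agent.N485.BT
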