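import Mathlib
import Pool.Agent.N485.BT.Tree

/-! The pruned binary subtree. -/

set_option autoImplicit false

namespace Pool.Agent.N485.BT

open Finset

section prune
variable {A : Type*} [DecidableEq A] [Fintype A]
  {B : ℕ → List (Bool × A) → Finset (List (Bool × A))} {n0 : ℕ}

theorem Ev.ext' (i j : Ev A B n0) (h1 : i.w = j.w) (h2 : i.p = j.p) (h3 : i.s = j.s) : i = j := by
  cases i; cases j
  simp only at h1 h2 h3
  subst h1 h2 h3
  rfl

theorem geom_bound (n0 N : ℕ) : ∑ n ∈ Ico n0 N, ((1 : ℝ) / 2) ^ n ≤ 2 * (1 / 2) ^ n0 := by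
  rcases le_total n0 N with h | h
  · have : ∑ n ∈ Ico n0 N, ((1 : ℝ) / 2) ^ n ≤ 2 * (1 / 2) ^ n0 - 2 * (1 / 2) ^ N := by
      induction N, h using Nat.le_induction with
      | base => simp
      | succ N hN ih =>
        rw [Finset.sum_Ico_succ_top hN, pow_succ]
        linarith
    have h2 : (0 : ℝ) ≤ 2 * (1 / 2) ^ N := by positivity
    linarith
  · rw [Finset.Ico_eq_empty_of_le h]
    simp

theorem fiber_card (K : ℕ) (hB : ∀ n x, (B n x).card ≤ K * 2 ^ n)
    (y : List (Bool × A)) (b : Bool) (J : Finset (Ev A B n0))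
    (hJ : ∀ i ∈ J, ∃ a, ((y, b), a) ∈ i.S) (n : ℕ)
    (hn : ∀ i ∈ J, i.p.length + i.s.length = n) :
    J.card ≤ 2 * ((Nb y (n / 2)).card * (K * 2 ^ n)) := by
  classical
  let U : Finset (List (Bool × A) × List (Bool × A)) :=
    (Nb y (n / 2)).biUnion (fun x => (B n x).image (fun x' => (x, x')))
  let V : Finset (List (Bool × A) × List (Bool × A)) :=
    (Nb y (n / 2)).biUnion (fun x => (B n x).image (fun x' => (x', x)))
  have hU : U.card ≤ (Nb y (n / 2)).card * (K * 2 ^ n) := by
    apply card_biUnion_le_card_mul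
    intro x _
    exact card_image_le.trans (hB n x)
  have hV : V.card ≤ (Nb y (n / 2)).card * (K * 2 ^ n) := by
    apply card_biUnion_le_card_mul
    intro x _
    exact card_image_le.trans (hB n x)
  have hJUV : J.card ≤ (U ∪ V).card := by
    apply card_le_card_of_injOn (fun i => (i.p ++ i.w, i.s ++ i.w))
    · intro i hi
      have hi' : i ∈ J := hi
      obtain ⟨a, ha⟩ := hJ i hi'
      have h1 := i.near y b a ha
      have hB1 := i.hB
      have hB2 := i.hB'
      rw [hn i hi'] at h1 hB1 hB2
      rw [coe_union, Set.mem_union]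
      rcases h1 with h1 | h1
      · left
        simp only [U, mem_coe, mem_biUnion, mem_image]
        exact ⟨_, h1, _, hB1, rfl⟩
      · right
        simp only [V, mem_coe, mem_biUnion, mem_image]
        exact ⟨_, h1, _, hB2, rfl⟩
    · intro i hi j hj hij
      have hi' := hn i hi
      have hj' := hn j hj
      simp only [Prod.mk.injEq] at hij
      obtain ⟨h1, h2⟩ := hij
      have l1 := congrArg List.length h1
      have l2 := congrArg List.length h2
      simp only [List.length_append] at l1 l2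
      have hp := List.append_inj h1 (by omega)
      have hs := List.append_inj h2 (by omega)
      exact Ev.ext' i j hp.2 hp.1 hs.1
  calc J.card ≤ (U ∪ V).card := hJUV
    _ ≤ U.card + V.card := card_union_le _ _
    _ ≤ _ := by omega

theorem weight_sum (hq : Fintype.card A = 4096) (K : ℕ) (hB : ∀ n x, (B n x).card ≤ K * 2 ^ n)
    (hK : 4 * K ≤ 2 ^ n0)
    (y : List (Bool × A)) (b : Bool) (J : Finset (Ev A B n0))
    (hJ : ∀ i ∈ J, ∃ a, ((y, b), a) ∈ i.S) :
    ∑ i ∈ J, ((2 : ℝ) / Fintype.card A) ^ (i.S).card ≤ 1 := by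
  classical
  let nn : Ev A B n0 → ℕ := fun i => i.p.length + i.s.length
  let N := J.sup nn + 1
  have hmaps : ∀ i ∈ J, nn i ∈ Ico n0 N := by
    intro i hi
    rw [mem_Ico]
    exact ⟨i.hn, Nat.lt_succ_of_le (Finset.le_sup (f := nn) hi)⟩
  rw [← Finset.sum_fiberwise_of_maps_to hmaps]
  have hfib : ∀ n ∈ Ico n0 N, ∑ i ∈ J.filter (fun i => nn i = n),
      ((2 : ℝ) / Fintype.card A) ^ (i.S).card ≤ 2 * K * (1 / 2) ^ n := by
    intro n _
    have h1 : ∑ i ∈ J.filter (fun i => nn i = n), ((2 : ℝ) / Fintype.card A) ^ (i.S).card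
        = ((J.filter (fun i => nn i = n)).card : ℝ) * (1 / 2048) ^ n := by
      rw [← nsmul_eq_mul, ← Finset.sum_const]
      apply Finset.sum_congr rfl
      intro i hi
      have hi2 : i.p.length + i.s.length = n := (mem_filter.mp hi).2
      rw [i.card_S, hi2, hq]
      norm_num
    have h2 := fiber_card K hB y b (J.filter (fun i => nn i = n))
      (fun i hi => hJ i (mem_filter.mp hi).1) n (fun i hi => (mem_filter.mp hi).2)
    have h3 := card_Nb y (n / 2)
    have hcard : Fintype.card (Bool × A) = 8192 := by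
      rw [Fintype.card_prod, hq, Fintype.card_bool]
    rw [hcard] at h3
    have h4 : (n / 2 + 1) ≤ 2 ^ n := by
      calc n / 2 + 1 ≤ n + 1 := by omega
        _ ≤ 2 ^ n := Nat.succ_le_of_lt n.lt_two_pow_self
    have h5 : (8192 + 1) ^ (n / 2) ≤ 2 ^ (7 * n) := by
      calc (8192 + 1) ^ (n / 2) ≤ (2 ^ 14) ^ (n / 2) := Nat.pow_le_pow_left (by norm_num) _
        _ = 2 ^ (14 * (n / 2)) := by rw [← pow_mul]
        _ ≤ 2 ^ (7 * n) := Nat.pow_le_pow_right (by norm_num) (by omega)
    have h6 : (J.filter (fun i => nn i = n)).card ≤ 2 * K * 2 ^ (9 * n) := by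
      calc _ ≤ 2 * ((Nb y (n / 2)).card * (K * 2 ^ n)) := h2
        _ ≤ 2 * (((n / 2 + 1) * (8192 + 1) ^ (n / 2)) * (K * 2 ^ n)) := by gcongr
        _ ≤ 2 * ((2 ^ n * 2 ^ (7 * n)) * (K * 2 ^ n)) := by gcongr
        _ = 2 * K * (2 ^ n * 2 ^ (7 * n) * 2 ^ n) := by ring
        _ = 2 * K * 2 ^ (9 * n) := by
          rw [← pow_add, ← pow_add]; congr 2; ring
    rw [h1]
    have h7 : ((J.filter (fun i => nn i = n)).card : ℝ) ≤ 2 * K * 2 ^ (9 * n) := by
      exact_mod_cast h6
    calc _ ≤ (2 * K * 2 ^ (9 * n)) * ((1 : ℝ) / 2048) ^ n := by gcongr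
      _ = 2 * K * ((2 ^ 9) ^ n * ((1 : ℝ) / 2048) ^ n) := by rw [← pow_mul]; ring
      _ = 2 * K * (1 / 4) ^ n := by
        rw [← mul_pow]; norm_num
      _ ≤ 2 * K * (1 / 2) ^ n := by
        gcongr; norm_num
  calc _ ≤ ∑ n ∈ Ico n0 N, 2 * (K : ℝ) * (1 / 2) ^ n := Finset.sum_le_sum hfib
    _ = 2 * K * ∑ n ∈ Ico n0 N, ((1 : ℝ) / 2) ^ n := by rw [Finset.mul_sum]
    _ ≤ 2 * K * (2 * (1 / 2) ^ n0) := by gcongr; exact geom_bound n0 N
    _ = (4 * K) / 2 ^ n0 := by rw [one_div, inv_pow]; field_simp; ring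
    _ ≤ 1 := by
      rw [div_le_one (by positivity)]
      exact_mod_cast hK

theorem prune (hq : Fintype.card A = 4096) (K : ℕ) (hB : ∀ n x, (B n x).card ≤ K * 2 ^ n)
    (hK : 4 * K ≤ 2 ^ n0) (hn0 : 1 ≤ n0) :
    ∃ c : List (Bool × A) × Bool → A, ∀ w p s : List (Bool × A), Div p s →
      n0 ≤ p.length + s.length → (∀ x ∈ T p w, c x.1 = x.2) → (∀ x ∈ T s w, c x.1 = x.2) →
      ¬ (s ++ w ∈ B (p.length + s.length) (p ++ w) ∧
        p ++ w ∈ B (p.length + s.length) (s ++ w)) := by
  obtain ⟨c, hc⟩ := exists_avoid_pairs (Z := List (Bool × A) × Bool) (A := A)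
    (ι := Ev A B n0) Ev.S (by rw [hq]; norm_num) Ev.functional (by
      intro i
      rw [← Finset.card_pos, i.card_S]
      have := i.hn
      omega) (by
      rintro ⟨y, b⟩ J hJ
      exact weight_sum hq K hB hK y b J hJ)
  refine ⟨c, ?_⟩
  rintro w p s hd hn hp hs ⟨h1, h2⟩
  obtain ⟨x, hx, hne⟩ := hc ⟨w, p, s, hd, hn, h1, h2⟩
  rw [Ev.S, mem_union] at hx
  rcases hx with hx | hx
  · exact hne (hp x hx)
  · exact hne (hs x hx)

/-- the binary subtree given by the choices `c` -/
def phi (c : List (Bool × A) × Bool → A) : List Bool → List (Bool × A)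
  | [] => []
  | (b :: u) => (b, c (phi c u, b)) :: phi c u

/-- the part of `phi c (p ++ w)` above `phi c w` -/
def psi (c : List (Bool × A) × Bool → A) (w : List Bool) : List Bool → List (Bool × A)
  | [] => []
  | (b :: u) => (b, c (phi c (u ++ w), b)) :: psi c w u

omit [DecidableEq A] [Fintype A] in
theorem phi_append (c : List (Bool × A) × Bool → A) (w p : List Bool) :
    phi c (p ++ w) = psi c w p ++ phi c w := by
  induction p with
  | nil => rfl
  | cons b p ih => rw [List.cons_append, phi, psi, ih, List.cons_append]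

omit [DecidableEq A] [Fintype A] in
theorem length_psi (c : List (Bool × A) × Bool → A) (w p : List Bool) :
    (psi c w p).length = p.length := by
  induction p with
  | nil => rfl
  | cons b p ih => simp [psi, ih]

omit [Fintype A] in
theorem T_psi (c : List (Bool × A) × Bool → A) (w p : List Bool) :
    ∀ x ∈ T (psi c w p) (phi c w), c x.1 = x.2 := by
  induction p with
  | nil => intro x hx; simp [psi, T] at hx
  | cons b p ih =>
    intro x hx
    rw [psi, T, mem_insert] at hx
    rcases hx with rfl | hx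
    · simp only [phi_append]
    · exact ih x hx

omit [DecidableEq A] [Fintype A] in
theorem map_psi (c : List (Bool × A) × Bool → A) (w p : List Bool) :
    (psi c w p).map Prod.fst = p := by
  induction p with
  | nil => rfl
  | cons b p ih => simp [psi, ih]

omit [DecidableEq A] [Fintype A] in
theorem div_psi (c : List (Bool × A) × Bool → A) (w p s : List Bool)
    (h : ∀ x y, p.getLast? = some x → s.getLast? = some y → x ≠ y) :
    Div (psi c w p) (psi c w s) := by
  intro x y hx hy
  apply h
  · have := congrArg List.getLast? (map_psi c w p)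
    rw [List.getLast?_map, hx] at this
    simpa using this.symm
  · have := congrArg List.getLast? (map_psi c w s)
    rw [List.getLast?_map, hy] at this
    simpa using this.symm

/-- every two lists have a longest common suffix -/
theorem meet (u v : List Bool) : ∃ w p s : List Bool, u = p ++ w ∧ v = s ++ w ∧
    ∀ x y, p.getLast? = some x → s.getLast? = some y → x ≠ y := by
  induction u using List.reverseRecOn generalizing v with
  | nil => exact ⟨[], [], v, rfl, by simp, by simp⟩
  | append_singleton u a ih =>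
    rcases List.eq_nil_or_concat v with hv | ⟨v', c, hv⟩
    · subst hv
      exact ⟨[], u ++ [a], [], by simp, rfl, by simp⟩
    · subst hv
      by_cases hac : a = c
      · subst hac
        obtain ⟨w, p, s, h1, h2, h3⟩ := ih v'
        exact ⟨w ++ [a], p, s, by rw [h1]; simp, by rw [h2]; simp, h3⟩
      · refine ⟨[], u ++ [a], v' ++ [c], by simp, by simp, ?_⟩
        intro x y hx hy
        simp only [List.getLast?_append, List.getLast?_singleton, Option.some_or,
          Option.some.injEq] at hx hy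
        rw [← hx, ← hy]
        exact hac

end prune

end Pool.Agent.N485.BT
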