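import Mathlib
import Pool.Agent.N485.BT.Defs
import Pool.Agent.N485.BT.Prune

set_option autoImplicit false

namespace Pool.Agent.N485.BT

open Filter Finset

theorem adj_cons (b : Bool) (u : List Bool) : treeG.Adj (b :: u) u := by
  rw [treeG, SimpleGraph.fromRel_adj]
  refine ⟨?_, Or.inl ⟨b, rfl⟩⟩
  intro h
  have := congrArg List.length h
  simp at this

theorem reach_append (p w : List Bool) : ∃ q : treeG.Walk (p ++ w) w, q.length = p.length := by
  induction p with
  | nil => exact ⟨SimpleGraph.Walk.nil, rfl⟩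
  | cons b p ih =>
    obtain ⟨q, hq⟩ := ih
    exact ⟨SimpleGraph.Walk.cons (adj_cons b (p ++ w)) q, by simp [hq]⟩

theorem tree_connected : treeG.Connected := by
  haveI : Nonempty (List Bool) := ⟨[]⟩
  refine ⟨?_⟩
  intro u v
  obtain ⟨q, _⟩ := reach_append u []
  obtain ⟨q', _⟩ := reach_append v []
  rw [List.append_nil] at q q'
  exact ⟨q.append q'.reverse⟩

theorem tdist_le (p s w : List Bool) : tdist (p ++ w) (s ++ w) ≤ p.length + s.length := by
  obtain ⟨q, hq⟩ := reach_append p w
  obtain ⟨q', hq'⟩ := reach_append s w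
  have := SimpleGraph.dist_le (q.append q'.reverse)
  rw [SimpleGraph.Walk.length_append, SimpleGraph.Walk.length_reverse, hq, hq'] at this
  exact this

theorem adj_cases {u v : List Bool} (h : treeG.Adj u v) :
    (∃ b : Bool, u = b :: v) ∨ (∃ b : Bool, v = b :: u) := by
  rw [treeG, SimpleGraph.fromRel_adj] at h
  exact h.2

theorem tdist_adj (b : Bool) (u : List Bool) : tdist (b :: u) u = 1 :=
  SimpleGraph.dist_eq_one_iff_adj.mpr (adj_cons b u)

theorem walk_drop {u : List Bool} : ∀ n : ℕ, ∀ v, ∀ q : treeG.Walk u v, q.length = n →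
    ∃ i s, i ≤ n ∧ s.length ≤ n ∧ v = s ++ u.drop i := by
  intro n
  induction n with
  | zero =>
    intro v q hq
    have := SimpleGraph.Walk.eq_of_length_eq_zero hq
    exact ⟨0, [], le_refl _, by simp, by simp [this]⟩
  | succ n ih =>
    intro v q hq
    have hq' : q.reverse.length = n + 1 := by rw [SimpleGraph.Walk.length_reverse, hq]
    rcases hqr : q.reverse with _ | ⟨hadj, q2⟩
    · rw [hqr] at hq'; simp at hq'
    · rename_i v'
      rw [hqr] at hq'
      simp only [SimpleGraph.Walk.length_cons, Nat.add_right_cancel_iff] at hq'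
      obtain ⟨i, s, hi, hs, hv'⟩ := ih v' q2.reverse (by
        rw [SimpleGraph.Walk.length_reverse]; exact hq')
      rcases adj_cases hadj with ⟨b, hb⟩ | ⟨b, hb⟩
      · exact ⟨i, b :: s, by omega, by simpa using hs, by rw [hb, hv']; rfl⟩
      · cases s with
        | nil =>
          refine ⟨i + 1, [], by omega, by simp, ?_⟩
          rw [List.nil_append] at hv' ⊢
          rw [← List.drop_drop, ← hv', hb]
          simp
        | cons c s =>
          refine ⟨i, s, by omega, by simp only [List.length_cons] at hs; omega, ?_⟩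
          rw [hb] at hv'
          simp only [List.cons_append, List.cons.injEq] at hv'
          exact hv'.2

theorem mem_Nb_of_tdist {u v : List Bool} {t : ℕ} (h : tdist u v ≤ t) : v ∈ Nb u t := by
  obtain ⟨q, hq⟩ := tree_connected.exists_walk_length_eq_dist u v
  obtain ⟨i, s, hi, hs, hv⟩ := walk_drop _ v q rfl
  have h2 : q.length ≤ t := by rw [hq]; exact h
  clear hq
  have h3 := mem_Nb u t i s (hi.trans h2) (hs.trans h2)
  rw [← hv] at h3
  exact h3

section core
variable {X : Type*} (D : X → X → ℝ) (h0 : ∀ x, D x x = 0) (hsym : ∀ x y, D x y = D y x)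
  (htri : ∀ x y z, D x z ≤ D x y + D y z)
include h0 hsym htri

theorem D_nonneg (x y : X) : 0 ≤ D x y := by
  have := htri x y x
  rw [h0, hsym y x] at this
  linarith

theorem lip_walk (f : List Bool → X) (L : ℝ) (hL : ∀ b u, D (f (b :: u)) (f u) ≤ L)
    {u v : List Bool} (q : treeG.Walk u v) : D (f u) (f v) ≤ L * q.length := by
  induction q with
  | nil => simp [h0]
  | cons h q ih =>
    rename_i a b c
    have h1 : D (f a) (f b) ≤ L := by
      rcases adj_cases h with ⟨x, hx⟩ | ⟨x, hx⟩
      · rw [hx]; exact hL x b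
      · rw [hsym, hx]; exact hL x a
    rw [SimpleGraph.Walk.length_cons]
    push_cast
    have := htri (f a) (f b) (f c)
    linarith

theorem lip_tdist (f : List Bool → X) (L : ℝ) (hL : ∀ b u, D (f (b :: u)) (f u) ≤ L)
    (u v : List Bool) : D (f u) (f v) ≤ L * tdist u v := by
  obtain ⟨q, hq⟩ := tree_connected.exists_walk_length_eq_dist u v
  have := lip_walk D h0 hsym htri f L hL q
  rw [hq] at this
  exact this

theorem lip_append (f : List Bool → X) (L : ℝ) (hL : ∀ b u, D (f (b :: u)) (f u) ≤ L)
    (p w : List Bool) : D (f (p ++ w)) (f w) ≤ L * p.length := by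
  obtain ⟨q, hq⟩ := reach_append p w
  have := lip_walk D h0 hsym htri f L hL q
  rw [hq] at this
  exact this

omit h0 hsym htri in
/-- the letters -/
abbrev Lt := Fin 12 → Bool

/-- the encoding of the big alphabet by blocks -/
def enc : List (Bool × Lt) → List Bool
  | [] => []
  | (x :: t) => (x.1 :: List.ofFn x.2) ++ enc t

omit h0 hsym htri in
theorem enc_injective : Function.Injective enc := by
  intro x y h
  induction x generalizing y with
  | nil =>
    cases y with
    | nil => rfl
    | cons a y => simp [enc] at h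
  | cons a x ih =>
    cases y with
    | nil => simp [enc] at h
    | cons b y =>
      rw [enc, enc] at h
      have h1 := List.append_inj h (by simp)
      have h2 := ih h1.2
      have h3 := h1.1
      simp only [List.cons.injEq] at h3
      have h4 := List.ofFn_injective h3.2
      rw [h2, Prod.ext h3.1 h4]

/-- The core theorem. -/
theorem core (f : List Bool → X) (L : ℝ) (hL : ∀ b u, D (f (b :: u)) (f u) ≤ L)
    (ε : ℝ) (hε : 0 < ε) (K : ℕ)
    (hcrowd : ∀ u (n : ℕ), ∃ B : Finset (List Bool), B.card ≤ K * 2 ^ n ∧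
      ∀ v, D (f u) (f v) ≤ ε * n → v ∈ B) :
    ∃ g : List Bool → List Bool, QIEmb D (fun u => f (g u)) := by
  classical
  choose B hBc hB using hcrowd
  let B' : ℕ → List (Bool × Lt) → Finset (List (Bool × Lt)) :=
    fun n x => (B (enc x) n).preimage enc enc_injective.injOn
  have hB'c : ∀ n x, (B' n x).card ≤ K * 2 ^ n := by
    intro n x
    refine le_trans ?_ (hBc (enc x) n)
    apply card_le_card_of_injOn enc
    · intro y hy
      simpa [B'] using hy
    · exact enc_injective.injOn
  have hB' : ∀ (n : ℕ) x y, D (f (enc x)) (f (enc y)) ≤ ε * n → y ∈ B' n x := by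
    intro n x y h
    simp only [B', mem_preimage]
    exact hB _ _ _ h
  obtain ⟨c, hc⟩ := prune (A := Lt) (B := B') (n0 := 4 * K + 1) (by simp) K hB'c
    (by
      have := (4 * K + 1).lt_two_pow_self
      omega) (by omega)
  obtain ⟨F, hF⟩ : ∃ F : List Bool → X, ∀ u, F u = f (enc (phi c u)) := ⟨_, fun _ => rfl⟩
  have hL' : ∀ b u, D (F (b :: u)) (F u) ≤ L * 13 := by
    intro b u
    have := lip_append D h0 hsym htri f L hL (b :: List.ofFn (c (phi c u, b))) (enc (phi c u))
    simpa [hF, phi, enc] using this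
  have hlow : ∀ w p s : List Bool, (∀ x y, p.getLast? = some x → s.getLast? = some y → x ≠ y) →
      4 * K + 1 ≤ p.length + s.length →
      ε * ((p.length + s.length : ℕ) : ℝ) < D (F (p ++ w)) (F (s ++ w)) := by
    intro w p s hps hn
    by_contra h
    have h' : D (F (p ++ w)) (F (s ++ w)) ≤ ε * ((p.length + s.length : ℕ) : ℝ) := not_lt.mp h
    rw [hF, hF] at h'
    have h1 := hB' _ _ _ h'
    rw [hsym] at h'
    have h2 := hB' _ _ _ h'
    rw [phi_append, phi_append] at h1 h2
    refine hc (phi c w) (psi c w p) (psi c w s) (div_psi c w p s hps)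
        (by rw [length_psi, length_psi]; exact hn) (T_psi c w p) (T_psi c w s) ?_
    rw [length_psi, length_psi]
    exact ⟨h1, h2⟩
  clear hc hB' hB'c hB hBc
  have hL0 : 0 ≤ L * 13 := (D_nonneg D h0 hsym htri _ _).trans (hL' true [])
  obtain ⟨bb, hb1, hb2⟩ : ∃ bb : ℝ, ε * (4 * K + 1) ≤ bb ∧ L * 13 ≤ bb :=
    ⟨max (ε * (4 * K + 1)) (L * 13), le_max_left _ _, le_max_right _ _⟩
  refine ⟨fun u => enc (phi c u), ε, bb, hε, ?_⟩
  intro u v
  have hb0 : 0 ≤ bb := hL0.trans hb2
  have htd : (0 : ℝ) ≤ tdist u v := by positivity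
  show ε * tdist u v - bb ≤ D (f (enc (phi c u))) (f (enc (phi c v))) ∧
    D (f (enc (phi c u))) (f (enc (phi c v))) ≤ bb * tdist u v + bb
  rw [← hF, ← hF]
  constructor
  · obtain ⟨w, p, s, hu, hv, hps⟩ := meet u v
    have h1 : tdist u v ≤ p.length + s.length := by rw [hu, hv]; exact tdist_le p s w
    have h1' : (tdist u v : ℝ) ≤ ((p.length + s.length : ℕ) : ℝ) := by exact_mod_cast h1
    by_cases hn : 4 * K + 1 ≤ p.length + s.length
    · have h2 := hlow w p s hps hn
      rw [← hu, ← hv] at h2
      have h4 : ε * tdist u v ≤ ε * ((p.length + s.length : ℕ) : ℝ) := by gcongr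
      linarith
    · have h5 := D_nonneg D h0 hsym htri (F u) (F v)
      have h6 : (tdist u v : ℝ) ≤ 4 * K + 1 := by
        have : tdist u v ≤ 4 * K + 1 := by omega
        exact_mod_cast this
      have h7 : ε * tdist u v ≤ ε * (4 * K + 1) := by gcongr
      linarith
  · have h1 := lip_tdist D h0 hsym htri F (L * 13) hL' u v
    have h2 : L * 13 * tdist u v ≤ bb * tdist u v := by gcongr
    linarith

end core

end Pool.Agent.N485.BT
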