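import Mathlib
import Pool.Agent.N485.BT.Core

set_option autoImplicit false

namespace Pool.Agent.N485.BT

open Filter Finset

section abs
variable {X : Type*} (D : X → X → ℝ) (h0 : ∀ x, D x x = 0) (hsym : ∀ x y, D x y = D y x)
  (htri : ∀ x y z, D x z ≤ D x y + D y z)

/-- covering property -/
def Cov (D : X → X → ℝ) : Prop := ∃ N : ℕ, ∀ x (k : ℕ), ∃ C : Finset X, C.card ≤ N ^ (k + 1) ∧
  ∀ y, D x y ≤ k → ∃ c ∈ C, D c y ≤ 1

include hsym in
theorem crowd_of_cov (hcov : Cov D) (f : List Bool → X) (m : ℕ)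
    (hm : ∀ x, {u : List Bool | D (f u) x ≤ 1}.encard ≤ m) :
    ∃ ε : ℝ, 0 < ε ∧ ∃ K : ℕ, ∀ u (n : ℕ), ∃ B : Finset (List Bool), B.card ≤ K * 2 ^ n ∧
      ∀ v, D (f u) (f v) ≤ ε * n → v ∈ B := by
  classical
  obtain ⟨N, hN⟩ := hcov
  have hfin : ∀ x, {u : List Bool | D (f u) x ≤ 1}.Finite := by
    intro x
    apply Set.finite_of_encard_le_coe (hm x)
  have hM : 0 < N + 1 := by omega
  refine ⟨1 / ((N + 1 : ℕ) : ℝ), by positivity, m * (N + 1) ^ 2, ?_⟩
  intro u n
  obtain ⟨C, hC, hCy⟩ := hN (f u) (n / (N + 1) + 1)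
  refine ⟨C.biUnion (fun c => (hfin c).toFinset), ?_, ?_⟩
  · have h1 : (C.biUnion (fun c => (hfin c).toFinset)).card ≤ C.card * m := by
      apply card_biUnion_le_card_mul
      intro c _
      have := hm c
      rw [(hfin c).encard_eq_coe_toFinset_card] at this
      exact_mod_cast this
    have h2 : (N + 1) ^ (n / (N + 1)) ≤ 2 ^ n := by
      calc (N + 1) ^ (n / (N + 1)) ≤ (2 ^ (N + 1)) ^ (n / (N + 1)) :=
            Nat.pow_le_pow_left (N + 1).lt_two_pow_self.le _
        _ = 2 ^ ((N + 1) * (n / (N + 1))) := by rw [← pow_mul]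
        _ ≤ 2 ^ n := Nat.pow_le_pow_right (by norm_num) (Nat.mul_div_le n (N + 1))
    calc _ ≤ C.card * m := h1
      _ ≤ N ^ (n / (N + 1) + 1 + 1) * m := by gcongr
      _ ≤ (N + 1) ^ (n / (N + 1) + 1 + 1) * m := by gcongr; omega
      _ = (N + 1) ^ (n / (N + 1)) * (m * (N + 1) ^ 2) := by ring
      _ ≤ 2 ^ n * (m * (N + 1) ^ 2) := by gcongr
      _ = _ := by ring
  · intro v hv
    have h3 : D (f u) (f v) ≤ ((n / (N + 1) + 1 : ℕ) : ℝ) := by
      refine hv.trans ?_
      have h4 : (n : ℝ) < ((N + 1 : ℕ) : ℝ) * ((n / (N + 1) + 1 : ℕ) : ℝ) := by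
        have := Nat.lt_mul_div_succ n hM
        exact_mod_cast this
      rw [one_div, inv_mul_le_iff₀ (by positivity)]
      exact h4.le
    obtain ⟨c, hc, hcy⟩ := hCy (f v) h3
    rw [mem_biUnion]
    refine ⟨c, hc, ?_⟩
    rw [Set.Finite.mem_toFinset, Set.mem_ofPred_eq, hsym]
    exact hcy

include h0 hsym htri in
theorem qi_of_regular (hcov : Cov D) (f : List Bool → X) (hf : RegularMap D f) :
    ∃ g : List Bool → X, QIEmb D g := by
  obtain ⟨⟨L, hL⟩, m, hm⟩ := hf
  obtain ⟨ε, hε, K, hK⟩ := crowd_of_cov D hsym hcov f m hm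
  obtain ⟨g, hg⟩ := core D h0 hsym htri f L (by
    intro b u
    have := hL (b :: u) u
    rw [tdist_adj] at this
    simpa using this) ε hε K hK
  exact ⟨_, hg⟩

theorem coarse_of_qi (f : List Bool → X) (hf : QIEmb D f) : CoarseEmb D f := by
  obtain ⟨a, b, ha, h⟩ := hf
  refine ⟨fun t => a * t - b, fun t => b * t + b, ?_, h⟩
  exact tendsto_atTop_add_const_right _ _ (tendsto_id.const_mul_atTop ha)

include h0 hsym htri in
theorem regular_of_coarse (f : List Bool → X) (hf : CoarseEmb D f) : RegularMap D f := by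
  classical
  obtain ⟨rhoL, rhoU, hlim, h⟩ := hf
  refine ⟨⟨rhoU 1, fun u v => ?_⟩, ?_⟩
  · apply lip_tdist D h0 hsym htri f (rhoU 1)
    intro b u
    have := (h (b :: u) u).2
    rw [tdist_adj] at this
    simpa using this
  · obtain ⟨t, ht⟩ := (tendsto_atTop_atTop.mp hlim) 3
    obtain ⟨t0, ht0⟩ := exists_nat_ge t
    refine ⟨(t0 + 1) * (Fintype.card Bool + 1) ^ t0, fun x => ?_⟩
    rcases Set.eq_empty_or_nonempty {u : List Bool | D (f u) x ≤ 1} with he | ⟨u0, hu0⟩
    · rw [he]; simp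
    · have hsub : {u : List Bool | D (f u) x ≤ 1} ⊆ (Nb u0 t0 : Set (List Bool)) := by
        intro u hu
        rw [Set.mem_ofPred_eq] at hu hu0
        have h1 : D (f u0) (f u) ≤ 2 := by
          have := htri (f u0) x (f u)
          rw [hsym x (f u)] at this
          linarith
        rw [mem_coe]
        apply mem_Nb_of_tdist
        by_contra hlt
        push Not at hlt
        have h2 : t ≤ (tdist u0 u : ℝ) := ht0.trans (by exact_mod_cast hlt.le)
        have h3 := ht _ h2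
        have h4 := (h u0 u).1
        linarith
      calc _ ≤ (Nb u0 t0 : Set (List Bool)).encard := Set.encard_le_encard hsub
        _ = ((Nb u0 t0).card : ℕ∞) := Set.encard_coe_eq_coe_finsetCard _
        _ ≤ _ := by exact_mod_cast card_Nb u0 t0

include h0 hsym htri in
theorem tfae_of_cov (hcov : Cov D) :
    List.TFAE [∃ f : List Bool → X, CoarseEmb D f, ∃ f : List Bool → X, QIEmb D f,
      ∃ f : List Bool → X, RegularMap D f] := by
  tfae_have 2 → 1 := fun ⟨f, hf⟩ => ⟨f, coarse_of_qi D f hf⟩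
  tfae_have 1 → 3 := fun ⟨f, hf⟩ => ⟨f, regular_of_coarse D h0 hsym htri f hf⟩
  tfae_have 3 → 2 := fun ⟨f, hf⟩ => qi_of_regular D h0 hsym htri hcov f hf
  tfae_finish

end abs

/-- The covering property of a cocompact proper geodesic space. -/
theorem cov_metric (X : Type) [MetricSpace X] [ProperSpace X]
    (hgeo : ∀ x y : X, ∃ γ : ℝ → X, γ 0 = x ∧ γ (dist x y) = y ∧
        ∀ s ∈ Set.Icc (0 : ℝ) (dist x y), ∀ t ∈ Set.Icc (0 : ℝ) (dist x y),
          dist (γ s) (γ t) = |s - t|)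
    (hco : ∃ K : Set X, IsCompact K ∧ ∀ x : X, ∃ g : X ≃ᵢ X, g x ∈ K) :
    Cov (fun x y : X => dist x y) := by
  classical
  rcases isEmpty_or_nonempty X with hX | ⟨⟨o⟩⟩
  · exact ⟨0, fun x => (hX.false x).elim⟩
  obtain ⟨K, hK, hKg⟩ := hco
  obtain ⟨r, hr⟩ := hK.isBounded.subset_closedBall o
  obtain ⟨t, _, htf, htc⟩ := (isCompact_closedBall o (r + 2)).finite_cover_balls (e := 1) one_pos
  have hbase : ∀ x : X, ∃ C : Finset X, C.card ≤ htf.toFinset.card ∧
      ∀ y, dist x y ≤ 2 → ∃ c ∈ C, dist c y ≤ 1 := by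
    intro x
    obtain ⟨g, hg⟩ := hKg x
    refine ⟨htf.toFinset.image g.symm, card_image_le, ?_⟩
    intro y hy
    have h1 : g y ∈ Metric.closedBall o (r + 2) := by
      rw [Metric.mem_closedBall]
      have h2 : dist (g x) o ≤ r := Metric.mem_closedBall.mp (hr hg)
      have h3 : dist (g y) (g x) ≤ 2 := by rw [g.isometry.dist_eq, dist_comm]; exact hy
      linarith [dist_triangle (g y) (g x) o]
    have h4 := htc h1
    simp only [Set.mem_iUnion, Metric.mem_ball] at h4
    obtain ⟨c, hc, hcd⟩ := h4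
    refine ⟨g.symm c, mem_image_of_mem _ (htf.mem_toFinset.mpr hc), ?_⟩
    have h5 : dist (g (g.symm c)) (g y) = dist (g.symm c) y := g.isometry.dist_eq _ _
    rw [← h5, g.apply_symm_apply, dist_comm]
    exact hcd.le
  set N := htf.toFinset.card with hN
  refine ⟨N, ?_⟩
  intro x k
  induction k with
  | zero =>
    obtain ⟨C, hC, hCy⟩ := hbase x
    refine ⟨C, by simpa using hC, ?_⟩
    intro y hy
    apply hCy
    simp only [Nat.cast_zero] at hy
    linarith
  | succ k ih =>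
    obtain ⟨C, hC, hCy⟩ := ih
    choose E hE hEy using hbase
    refine ⟨C.biUnion E, ?_, ?_⟩
    · calc (C.biUnion E).card ≤ C.card * N := card_biUnion_le_card_mul _ _ _ (fun c _ => hE c)
        _ ≤ N ^ (k + 1) * N := by gcongr
        _ = _ := by ring
    · intro y hy
      simp only at hy
      push_cast at hy
      obtain ⟨γ, hγ0, hγ1, hγ⟩ := hgeo x y
      have hd : 0 ≤ dist x y := dist_nonneg
      obtain ⟨s, hs0, hs1, hs2, hs3⟩ : ∃ s : ℝ, 0 ≤ s ∧ s ≤ dist x y ∧ s ≤ k ∧ dist x y - s ≤ 1 := by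
        rcases le_total (dist x y) k with h | h
        · exact ⟨dist x y, hd, le_refl _, h, by linarith⟩
        · exact ⟨k, by positivity, h, le_refl _, by linarith⟩
      have h1 : dist x (γ s) ≤ k := by
        have := hγ 0 ⟨le_refl _, hd⟩ s ⟨hs0, hs1⟩
        rw [hγ0, zero_sub, abs_neg, abs_of_nonneg hs0] at this
        linarith
      have h2 : dist (γ s) y ≤ 1 := by
        have := hγ s ⟨hs0, hs1⟩ (dist x y) ⟨hd, le_refl _⟩
        rw [hγ1, abs_sub_comm, abs_of_nonneg (by linarith)] at this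
        linarith
      obtain ⟨c, hc, hcd⟩ := hCy (γ s) h1
      obtain ⟨c', hc', hcd'⟩ := hEy c y (by linarith [dist_triangle c (γ s) y])
      exact ⟨c', mem_biUnion.mpr ⟨c, hc, hc'⟩, hcd'⟩

end Pool.Agent.N485.BT
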