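import Mathlib
import Pool.Agent.N485.BT.Equiv

set_option autoImplicit false

namespace Pool.Agent.N485.BT

open Filter Finset

section grp
variable {G : Type*} [Group G] (S : Finset G)

theorem cay_step (g s : G) (hs : s ∈ S) : (cay S).Reachable g (g * s) := by
  by_cases h : g = g * s
  · rw [← h]
  · apply SimpleGraph.Adj.reachable
    rw [cay, SimpleGraph.fromRel_adj]
    exact ⟨h, Or.inl ⟨s, hs, rfl⟩⟩

theorem cay_dist_step (g s : G) (hs : s ∈ S) : (cay S).dist g (g * s) ≤ 1 := by
  by_cases h : g = g * s
  · rw [← h]; simp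
  · apply le_of_eq
    rw [SimpleGraph.dist_eq_one_iff_adj, cay, SimpleGraph.fromRel_adj]
    exact ⟨h, Or.inl ⟨s, hs, rfl⟩⟩

theorem cay_connected (hS : Subgroup.closure (S : Set G) = ⊤) : (cay S).Connected := by
  have key : ∀ x : G, ∀ g : G, (cay S).Reachable g (g * x) := by
    intro x
    have hx : x ∈ Subgroup.closure (S : Set G) := by rw [hS]; trivial
    induction hx using Subgroup.closure_induction with
    | mem x hx => exact fun g => cay_step S g x hx
    | one => intro g; rw [mul_one]
    | mul x y _ _ ih1 ih2 =>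
      intro g
      rw [← mul_assoc]
      exact (ih1 g).trans (ih2 (g * x))
    | inv x _ ih =>
      intro g
      have := ih (g * x⁻¹)
      rw [inv_mul_cancel_right] at this
      exact this.symm
  haveI : Nonempty G := ⟨1⟩
  refine ⟨?_⟩
  intro g h
  have := key (g⁻¹ * h) g
  rwa [mul_inv_cancel_left] at this

theorem word_self (g : G) : wordDist S g g = 0 := by simp [wordDist]

theorem word_symm (g h : G) : wordDist S g h = wordDist S h g := by
  rw [wordDist, wordDist, SimpleGraph.dist_comm]

theorem word_triangle (hS : Subgroup.closure (S : Set G) = ⊤) (x y z : G) :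
    wordDist S x z ≤ wordDist S x y + wordDist S y z := by
  unfold wordDist
  exact_mod_cast (cay_connected S hS).dist_triangle

theorem word_bound (hS : Subgroup.closure (S : Set G) = ⊤) (x : G) :
    ∃ n : ℕ, ∀ g : G, wordDist S g (g * x) ≤ n := by
  have hx : x ∈ Subgroup.closure (S : Set G) := by rw [hS]; trivial
  induction hx using Subgroup.closure_induction with
  | mem x hx => exact ⟨1, fun g => by unfold wordDist; exact_mod_cast cay_dist_step S g x hx⟩
  | one => exact ⟨0, fun g => by rw [mul_one, word_self]; simp⟩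
  | mul x y _ _ ih1 ih2 =>
    obtain ⟨n1, h1⟩ := ih1
    obtain ⟨n2, h2⟩ := ih2
    refine ⟨n1 + n2, fun g => ?_⟩
    have := word_triangle S hS g (g * x) (g * (x * y))
    have h3 := h2 (g * x)
    rw [mul_assoc] at h3
    have h4 := h1 g
    push_cast
    linarith
  | inv x _ ih =>
    obtain ⟨n, h⟩ := ih
    refine ⟨n, fun g => ?_⟩
    have := h (g * x⁻¹)
    rw [inv_mul_cancel_right] at this
    rw [word_symm]
    exact this

open Classical in
/-- neighbours and the point itself -/
noncomputable def nbs (g : G) : Finset G :=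
  insert g ((S.image (fun s => g * s)) ∪ (S.image (fun s => g * s⁻¹)))

theorem card_nbs (g : G) : (nbs S g).card ≤ 2 * S.card + 1 := by
  classical
  unfold nbs
  have h1 : (S.image (fun s => g * s)).card ≤ S.card := card_image_le
  have h2 : (S.image (fun s => g * s⁻¹)).card ≤ S.card := card_image_le
  have h3 := card_union_le (S.image (fun s => g * s)) (S.image (fun s => g * s⁻¹))
  have h4 := card_insert_le g ((S.image (fun s => g * s)) ∪ (S.image (fun s => g * s⁻¹)))
  omega

open Classical in
/-- balls -/
noncomputable def Bl : ℕ → G → Finset G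
  | 0, g => {g}
  | (n + 1), g => (nbs S g).biUnion (Bl n)

theorem card_Bl (n : ℕ) (g : G) : (Bl S n g).card ≤ (2 * S.card + 1) ^ n := by
  classical
  induction n generalizing g with
  | zero => simp [Bl]
  | succ n ih =>
    rw [Bl]
    calc _ ≤ (nbs S g).card * (2 * S.card + 1) ^ n := card_biUnion_le_card_mul _ _ _ (fun c _ => ih c)
      _ ≤ (2 * S.card + 1) * (2 * S.card + 1) ^ n := by gcongr; exact card_nbs S g
      _ = _ := by ring

theorem self_mem_Bl (n : ℕ) (g : G) : g ∈ Bl S n g := by
  classical
  induction n with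
  | zero => simp [Bl]
  | succ n ih =>
    rw [Bl, mem_biUnion]
    exact ⟨g, by simp [nbs], ih⟩

theorem mem_Bl {g h : G} (q : (cay S).Walk g h) : ∀ n, q.length ≤ n → h ∈ Bl S n g := by
  classical
  induction q with
  | nil => intro n _; exact self_mem_Bl S n _
  | cons hadj q ih =>
    rename_i a b c
    intro n hn
    rw [SimpleGraph.Walk.length_cons] at hn
    obtain ⟨k, rfl⟩ : ∃ k, n = k + 1 := ⟨n - 1, by omega⟩
    rw [Bl, mem_biUnion]
    refine ⟨b, ?_, ih k (by omega)⟩
    rw [cay, SimpleGraph.fromRel_adj] at hadj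
    unfold nbs
    rw [mem_insert, mem_union, mem_image, mem_image]
    rcases hadj.2 with ⟨s, hs, h⟩ | ⟨s, hs, h⟩
    · exact Or.inr (Or.inl ⟨s, hs, h.symm⟩)
    · exact Or.inr (Or.inr ⟨s, hs, by rw [h]; simp⟩)

theorem mem_Bl_of_dist (hS : Subgroup.closure (S : Set G) = ⊤) {g h : G} {n : ℕ}
    (hd : wordDist S g h ≤ n) : h ∈ Bl S n g := by
  obtain ⟨q, hq⟩ := (cay_connected S hS).exists_walk_length_eq_dist g h
  apply mem_Bl S q
  rw [hq]
  unfold wordDist at hd
  exact_mod_cast hd

theorem cov_word (hS : Subgroup.closure (S : Set G) = ⊤) : Cov (wordDist S) := by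
  refine ⟨2 * S.card + 1, fun x k => ⟨Bl S k x, ?_, ?_⟩⟩
  · refine (card_Bl S k x).trans ?_
    exact Nat.pow_le_pow_right (by omega) (by omega)
  · intro y hy
    exact ⟨y, mem_Bl_of_dist S hS hy, by rw [word_self]; norm_num⟩

theorem tfae_word (hS : Subgroup.closure (S : Set G) = ⊤) :
    List.TFAE [∃ f : List Bool → G, CoarseEmb (wordDist S) f,
      ∃ f : List Bool → G, QIEmb (wordDist S) f,
      ∃ f : List Bool → G, RegularMap (wordDist S) f] :=
  tfae_of_cov (wordDist S) (word_self S) (word_symm S) (word_triangle S hS) (cov_word S hS)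

theorem qi_of_free (hS : Subgroup.closure (S : Set G) = ⊤) (a b : G)
    (hfree : Function.Injective (fun l : List Bool => (l.map (fun x => cond x a b)).prod)) :
    ∃ f : List Bool → G, QIEmb (wordDist S) f := by
  classical
  obtain ⟨na, hna⟩ := word_bound S hS a
  obtain ⟨nb, hnb⟩ := word_bound S hS b
  let f : List Bool → G := fun l => (l.reverse.map (fun x => cond x a b)).prod
  have hf : Function.Injective f := by
    intro x y h
    exact List.reverse_injective (hfree h)
  have hstep : ∀ (x : Bool) (u : List Bool), f (x :: u) = f u * cond x a b := by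
    intro x u
    simp [f, List.prod_append]
  apply qi_of_regular (wordDist S) (word_self S) (word_symm S) (word_triangle S hS)
    (cov_word S hS) f
  refine ⟨⟨(na : ℝ) + nb, fun u v => ?_⟩, ?_⟩
  · apply lip_tdist (wordDist S) (word_self S) (word_symm S) (word_triangle S hS) f
    intro x u
    rw [hstep, word_symm]
    have h1 : (0 : ℝ) ≤ na := by positivity
    have h2 : (0 : ℝ) ≤ nb := by positivity
    cases x
    · have := hnb (f u)
      simp only [cond_false]
      linarith
    · have := hna (f u)
      simp only [cond_true]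
      linarith
  · refine ⟨(2 * S.card + 1) ^ 1, fun x => ?_⟩
    have hsub : f '' {u : List Bool | wordDist S (f u) x ≤ 1} ⊆ (Bl S 1 x : Set G) := by
      rintro _ ⟨u, hu, rfl⟩
      rw [Set.mem_ofPred_eq, word_symm] at hu
      exact mem_Bl_of_dist S hS (by simpa using hu)
    calc _ = (f '' {u : List Bool | wordDist S (f u) x ≤ 1}).encard :=
          (hf.injOn.encard_image).symm
      _ ≤ (Bl S 1 x : Set G).encard := Set.encard_le_encard hsub
      _ = ((Bl S 1 x).card : ℕ∞) := Set.encard_coe_eq_coe_finsetCard _
      _ ≤ _ := by exact_mod_cast card_Bl S 1 x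

end grp

end Pool.Agent.N485.BT
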