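import Mathlib
import Pool.Agent.N485.BT.Defs2
import Pool.Agent.N485.BT.Equiv

set_option autoImplicit false

namespace Pool.Agent.N485.BT

open Filter Finset

section orbit
variable {X : Type*} (j : Bool → X → X) (A : Set X)
  (hA : ∀ i, ∀ x ∈ A, j i x ∈ A)
  (hinj : ∀ i i' x x', x ∈ A → x' ∈ A → j i x = j i' x' → i = i' ∧ x = x')

/-- the orbit map -/
def orb (x0 : X) : List Bool → X
  | [] => x0
  | (b :: u) => j b (orb x0 u)

theorem orb_append (x0 : X) (u v : List Bool) : orb j x0 (u ++ v) = orb j (orb j x0 v) u := by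
  induction u with
  | nil => rfl
  | cons b u ih => rw [List.cons_append, orb, orb, ih]

include hA in
theorem orb_mem (x0 : X) (h0 : x0 ∈ A) (u : List Bool) : orb j x0 u ∈ A := by
  induction u with
  | nil => exact h0
  | cons b u ih => exact hA b _ ih

include hA hinj in
theorem orb_cancel (x0 : X) (h0 : x0 ∈ A) (u v : List Bool) (hl : u.length = v.length)
    (h : orb j x0 u = orb j x0 v) : u = v := by
  induction u generalizing v with
  | nil =>
    symm; exact List.length_eq_zero_iff.mp (by simpa using hl.symm)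
  | cons b u ih =>
    cases v with
    | nil => simp at hl
    | cons c v =>
      have h1 := hinj b c _ _ (orb_mem j A hA x0 h0 u) (orb_mem j A hA x0 h0 v) h
      rw [h1.1, ih v (by simpa using hl) h1.2]

include hA hinj in
theorem orb_injective (x0 : X) (h0 : x0 ∈ A) (hnp : ∀ u, u ≠ [] → orb j x0 u ≠ x0) :
    Function.Injective (orb j x0) := by
  intro u v h
  induction u generalizing v with
  | nil =>
    by_contra hne
    exact hnp v (fun h' => hne h'.symm) h.symm
  | cons b u ih =>
    cases v with
    | nil => exact absurd h (hnp (b :: u) (by simp))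
    | cons c v =>
      have h1 := hinj b c _ _ (orb_mem j A hA x0 h0 u) (orb_mem j A hA x0 h0 v) h
      rw [h1.1, ih h1.2]

theorem orb_pow (x0 : X) (u : List Bool) (hu : orb j x0 u = x0) (n : ℕ) :
    orb j x0 (List.replicate n u).flatten = x0 := by
  induction n with
  | zero => rfl
  | succ n ih => rw [List.replicate_succ, List.flatten_cons, orb_append, ih, hu]

theorem last_pow (u : List Bool) (b : Bool) (n : ℕ) (hn : n ≠ 0) :
    (List.replicate n (u ++ [b])).flatten.getLast? = some b := by
  obtain ⟨k, rfl⟩ : ∃ k, n = k + 1 := ⟨n - 1, by omega⟩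
  rw [List.replicate_succ', List.flatten_append]
  simp

include hA hinj in
theorem exists_root (hne : A.Nonempty) :
    ∃ x0 ∈ A, ∀ u, u ≠ [] → orb j x0 u ≠ x0 := by
  obtain ⟨x0, h0⟩ := hne
  by_cases hp : ∀ u, u ≠ [] → orb j x0 u ≠ x0
  · exact ⟨x0, h0, hp⟩
  · push Not at hp
    obtain ⟨u, hu, hux⟩ := hp
    rcases List.eq_nil_or_concat u with h | ⟨u', b0, h⟩
    · exact absurd h hu
    subst h
    rw [List.concat_eq_append] at hux
    refine ⟨j (!b0) x0, hA _ _ h0, ?_⟩
    intro v hv hvx
    cases v with
    | nil => exact hv rfl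
    | cons c v =>
      rw [orb] at hvx
      have hmem : orb j (j (!b0) x0) v ∈ A := orb_mem j A hA _ (hA _ _ h0) v
      have h1 := hinj c (!b0) _ _ hmem h0 hvx
      have h2 : orb j x0 (v ++ [!b0]) = x0 := by
        rw [orb_append]
        exact h1.2
      have e1 := orb_pow j x0 (u' ++ [b0]) hux (v ++ [!b0]).length
      have e2 := orb_pow j x0 (v ++ [!b0]) h2 (u' ++ [b0]).length
      have e3 := orb_cancel j A hA hinj x0 h0 _ _ (by
        simp only [List.length_flatten, List.map_replicate, List.sum_replicate, smul_eq_mul]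
        ring) (e1.trans e2.symm)
      have e4 := congrArg List.getLast? e3
      rw [last_pow _ _ _ (by simp), last_pow _ _ _ (by simp)] at e4
      simp at e4

end orbit

section abs
variable {X : Type*} (D : X → X → ℝ) (h0 : ∀ x, D x x = 0) (hsym : ∀ x y, D x y = D y x)
  (htri : ∀ x y z, D x z ≤ D x y + D y z)

include h0 hsym htri in
theorem regular_of_paradoxical (A : Set X) (hne : A.Nonempty) (hlf : LocFin D A)
    (hpar : BddParadoxical D A) : ∃ f : List Bool → X, RegularMap D f := by
  obtain ⟨R, j, hj, hinj⟩ := hpar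
  have hA : ∀ i, ∀ x ∈ A, j i x ∈ A := fun i x hx => (hj i x hx).1
  obtain ⟨x0, hx0, hnp⟩ := exists_root j A hA hinj hne
  have hfinj := orb_injective j A hA hinj x0 hx0 hnp
  obtain ⟨m, hm⟩ := hlf
  refine ⟨orb j x0, ⟨R, fun u v => ?_⟩, m, fun x => ?_⟩
  · apply lip_tdist D h0 hsym htri
    intro b u
    rw [hsym]
    exact (hj b _ (orb_mem j A hA x0 hx0 u)).2
  · calc _ = (orb j x0 '' {u : List Bool | D (orb j x0 u) x ≤ 1}).encard :=
          (hfinj.injOn.encard_image).symm
      _ ≤ {a : X | a ∈ A ∧ D a x ≤ 1}.encard := by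
        apply Set.encard_le_encard
        rintro _ ⟨u, hu, rfl⟩
        exact ⟨orb_mem j A hA x0 hx0 u, hu⟩
      _ ≤ m := hm x

open Classical in
/-- words of length `n` -/
noncomputable def Wd : ℕ → Finset (List Bool)
  | 0 => {[]}
  | (n + 1) => (univ ×ˢ Wd n).image (fun x : Bool × List Bool => x.1 :: x.2)

theorem Wd_length (n : ℕ) (l : List Bool) (h : l ∈ Wd n) : l.length = n := by
  classical
  induction n generalizing l with
  | zero => simp [Wd] at h; simp [h]
  | succ n ih =>
    rw [Wd, mem_image] at h
    obtain ⟨⟨a, l'⟩, h1, rfl⟩ := h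
    rw [mem_product] at h1
    simp [ih l' h1.2]

theorem Wd_card (n : ℕ) : (Wd n).card = 2 ^ n := by
  classical
  induction n with
  | zero => simp [Wd]
  | succ n ih =>
    rw [Wd, card_image_of_injective, card_product, ih]
    · simp [pow_succ]; ring
    · rintro ⟨a, l⟩ ⟨b, l'⟩ h
      simp only [List.cons.injEq] at h
      rw [h.1, h.2]

include h0 hsym htri in
theorem paradoxical_of_regular (f : List Bool → X) (hf : RegularMap D f) :
    ∃ A : Set X, A.Nonempty ∧ LocFin D A ∧ BddParadoxical D A := by
  classical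
  obtain ⟨⟨L, hL⟩, m, hm⟩ := hf
  let A : Set X := Set.range f
  have hpre : ∀ a : A, ∃ u, f u = a := fun a => a.2
  choose U hU using hpre
  let n := 2 * m
  have hn : 2 * m ≤ 2 ^ n := n.lt_two_pow_self.le
  let t : A × Bool → Finset X := fun a => (Wd n).image (fun p => f (p ++ U a.1))
  have hmult : ∀ x : X, ∀ W : Finset (List Bool), (W.filter (fun u => f u = x)).card ≤ m := by
    intro x W
    have h1 : ((W.filter (fun u => f u = x) : Finset (List Bool)) : Set (List Bool)) ⊆
        {u : List Bool | D (f u) x ≤ 1} := by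
      intro u hu
      rw [mem_coe, mem_filter] at hu
      rw [Set.mem_ofPred_eq, hu.2, h0]
      norm_num
    have h2 := (Set.encard_le_encard h1).trans (hm x)
    rw [Set.encard_coe_eq_coe_finsetCard] at h2
    exact_mod_cast h2
  have hall : ∀ s : Finset (A × Bool), s.card ≤ (s.biUnion t).card := by
    intro s
    let F : Finset A := s.image Prod.fst
    have hsF : s.card ≤ F.card * 2 := by
      have : s ⊆ F ×ˢ (univ : Finset Bool) := by
        intro x hx
        rw [mem_product]
        exact ⟨mem_image_of_mem _ hx, mem_univ _⟩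
      have := card_le_card this
      rwa [card_product, card_univ, Fintype.card_bool] at this
    let W : Finset (List Bool) := F.biUnion (fun a => (Wd n).image (fun p => p ++ U a))
    have hW : W.card = F.card * 2 ^ n := by
      rw [card_biUnion]
      · have : ∀ a ∈ F, ((Wd n).image (fun p => p ++ U a)).card = 2 ^ n := by
          intro a _
          rw [card_image_of_injective, Wd_card]
          intro p p' h
          exact List.append_cancel_right h
        rw [sum_congr rfl this, sum_const, smul_eq_mul]
      · intro a _ a' _ hne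
        rw [Function.onFun, Finset.disjoint_left]
        intro x hx hx'
        rw [mem_image] at hx hx'
        obtain ⟨p, hp, rfl⟩ := hx
        obtain ⟨p', hp', h⟩ := hx'
        have := List.append_inj h (by rw [Wd_length n p hp, Wd_length n p' hp'])
        apply hne
        apply Subtype.ext
        rw [← hU a, ← hU a', this.2]
    have himg : s.biUnion t = W.image f := by
      ext x
      simp only [t, W, F, mem_biUnion, mem_image]
      constructor
      · rintro ⟨a, ha, p, hp, rfl⟩
        exact ⟨p ++ U a.1, ⟨a.1, ⟨a, ha, rfl⟩, p, hp, rfl⟩, rfl⟩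
      · rintro ⟨w, ⟨a, ⟨b, hb, rfl⟩, p, hp, rfl⟩, rfl⟩
        exact ⟨b, hb, p, hp, rfl⟩
    rw [himg]
    have h3 : W.card ≤ m * (W.image f).card := card_le_mul_card_image W m (fun x _ => hmult x W)
    rw [hW] at h3
    have h4 : F.card * (2 * m) ≤ m * (W.image f).card := by
      calc F.card * (2 * m) ≤ F.card * 2 ^ n := by gcongr
        _ ≤ _ := h3
    rcases Nat.eq_zero_or_pos m with hm0 | hmpos
    · exfalso
      have := hm (f [])
      rw [hm0] at this
      simp only [Nat.cast_zero, nonpos_iff_eq_zero, Set.encard_eq_zero] at this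
      have h5 : ([] : List Bool) ∈ {u : List Bool | D (f u) (f []) ≤ 1} := by
        rw [Set.mem_ofPred_eq, h0]; norm_num
      rw [this] at h5
      exact h5
    · have h5 : F.card * 2 ≤ (W.image f).card := by
        apply Nat.le_of_mul_le_mul_left _ hmpos
        calc m * (F.card * 2) = F.card * (2 * m) := by ring
          _ ≤ _ := h4
      exact hsF.trans h5
  obtain ⟨J, hJinj, hJ⟩ := (Finset.all_card_le_biUnion_card_iff_exists_injective t).mp hall
  refine ⟨A, ⟨f [], [], rfl⟩, ⟨m, fun x => ?_⟩, L * n,
    fun i x => if h : x ∈ A then J (⟨x, h⟩, i) else x, ?_, ?_⟩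
  · have : {a : X | a ∈ A ∧ D a x ≤ 1} ⊆ f '' {u : List Bool | D (f u) x ≤ 1} := by
      rintro _ ⟨⟨u, rfl⟩, hu⟩
      exact ⟨u, hu, rfl⟩
    calc _ ≤ _ := Set.encard_le_encard this
      _ ≤ _ := Set.encard_image_le _ _
      _ ≤ _ := hm x
  · intro i x hx
    have h1 := hJ (⟨x, hx⟩, i)
    simp only [t, mem_image] at h1
    obtain ⟨p, hp, hpx⟩ := h1
    simp only [hx, dite_true]
    refine ⟨?_, ?_⟩
    · rw [← hpx]; exact ⟨_, rfl⟩
    · rw [← hpx]
      have h2 := lip_append D h0 hsym htri f L (by
        intro b u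
        have := hL (b :: u) u
        rw [tdist_adj] at this
        simpa using this) p (U ⟨x, hx⟩)
      rw [Wd_length n p hp, hU] at h2
      rw [hsym]
      exact h2
  · intro i i' x x' hx hx' h
    simp only [hx, hx', dite_true] at h
    have := hJinj h
    simp only [Prod.mk.injEq, Subtype.mk.injEq] at this
    exact ⟨this.2, this.1⟩

end abs

end Pool.Agent.N485.BT
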