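import Mathlib
import Pool.Agent.N485.BT.Defs2
import Pool.Agent.N485.BT.Groups
import Pool.Agent.N485.BT.Paradox

set_option autoImplicit false

namespace Pool.Agent.N485.BT

open Filter Finset

section abs
variable {X : Type*} (D : X → X → ℝ) (h0 : ∀ x, D x x = 0) (hsym : ∀ x y, D x y = D y x)
  (htri : ∀ x y z, D x z ≤ D x y + D y z)

include h0 hsym htri in
theorem tfae_of_cov4 (hcov : Cov D) :
    List.TFAE [∃ f : List Bool → X, CoarseEmb D f, ∃ f : List Bool → X, QIEmb D f,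
      ∃ f : List Bool → X, RegularMap D f,
      ∃ A : Set X, A.Nonempty ∧ LocFin D A ∧ BddParadoxical D A] := by
  tfae_have 2 → 1 := fun ⟨f, hf⟩ => ⟨f, coarse_of_qi D f hf⟩
  tfae_have 1 → 3 := fun ⟨f, hf⟩ => ⟨f, regular_of_coarse D h0 hsym htri f hf⟩
  tfae_have 3 → 2 := fun ⟨f, hf⟩ => qi_of_regular D h0 hsym htri hcov f hf
  tfae_have 3 → 4 := fun ⟨f, hf⟩ => paradoxical_of_regular D h0 hsym htri f hf
  tfae_have 4 → 3 := fun ⟨A, h1, h2, h3⟩ => regular_of_paradoxical D h0 hsym htri A h1 h2 h3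
  tfae_finish

end abs

section grp
variable {G : Type*} [Group G] (S : Finset G)

theorem Bl_translate (n : ℕ) (g x y : G) (h : y ∈ Bl S n x) : g * y ∈ Bl S n (g * x) := by
  classical
  induction n generalizing x with
  | zero =>
    simp only [Bl, mem_singleton] at h ⊢
    rw [h]
  | succ n ih =>
    rw [Bl, mem_biUnion] at h ⊢
    obtain ⟨z, hz, hy⟩ := h
    refine ⟨g * z, ?_, ih z hy⟩
    unfold nbs at hz ⊢
    rw [mem_insert, mem_union, mem_image, mem_image] at hz ⊢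
    rcases hz with rfl | ⟨s, hs, rfl⟩ | ⟨s, hs, rfl⟩
    · exact Or.inl rfl
    · exact Or.inr (Or.inl ⟨s, hs, by rw [mul_assoc]⟩)
    · exact Or.inr (Or.inr ⟨s, hs, by rw [mul_assoc]⟩)

theorem locFin_word (hS : Subgroup.closure (S : Set G) = ⊤) (A : Set G) :
    LocFin (wordDist S) A := by
  refine ⟨(2 * S.card + 1) ^ 1, fun x => ?_⟩
  have hsub : {a : G | a ∈ A ∧ wordDist S a x ≤ 1} ⊆ (Bl S 1 x : Set G) := by
    rintro u ⟨_, hu⟩
    rw [word_symm] at hu
    exact mem_Bl_of_dist S hS (by simpa using hu)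
  calc _ ≤ (Bl S 1 x : Set G).encard := Set.encard_le_encard hsub
    _ = ((Bl S 1 x).card : ℕ∞) := Set.encard_coe_eq_coe_finsetCard _
    _ ≤ _ := by exact_mod_cast card_Bl S 1 x

theorem bdd_of_paradoxical (hS : Subgroup.closure (S : Set G) = ⊤) (A : Set G)
    (h : Paradoxical A) : BddParadoxical (wordDist S) A := by
  obtain ⟨T, j, hj, hinj⟩ := h
  choose N hN using word_bound S hS
  refine ⟨∑ t ∈ T, (N t : ℝ), j, ?_, hinj⟩
  intro i x hx
  obtain ⟨h1, t, ht, h2⟩ := hj i x hx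
  refine ⟨h1, ?_⟩
  rw [h2]
  refine (hN t x).trans ?_
  exact Finset.single_le_sum (f := fun t => (N t : ℝ)) (fun _ _ => by positivity) ht

theorem paradoxical_of_bdd (hS : Subgroup.closure (S : Set G) = ⊤) (A : Set G)
    (h : BddParadoxical (wordDist S) A) : Paradoxical A := by
  obtain ⟨R, j, hj, hinj⟩ := h
  obtain ⟨n, hn⟩ := exists_nat_ge R
  refine ⟨Bl S n 1, j, ?_, hinj⟩
  intro i x hx
  obtain ⟨h1, h2⟩ := hj i x hx
  refine ⟨h1, x⁻¹ * j i x, ?_, by rw [mul_inv_cancel_left]⟩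
  have h3 : j i x ∈ Bl S n x := mem_Bl_of_dist S hS (h2.trans hn)
  have h4 := Bl_translate S n x⁻¹ x (j i x) h3
  rwa [inv_mul_cancel] at h4

theorem supra_iff (hS : Subgroup.closure (S : Set G) = ⊤) :
    ¬ Supramenable G ↔
      ∃ A : Set G, A.Nonempty ∧ LocFin (wordDist S) A ∧ BddParadoxical (wordDist S) A := by
  unfold Supramenable
  push Not
  constructor
  · rintro ⟨A, h1, h2⟩
    exact ⟨A, h1, locFin_word S hS A, bdd_of_paradoxical S hS A h2⟩
  · rintro ⟨A, h1, _, h2⟩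
    exact ⟨A, h1, paradoxical_of_bdd S hS A h2⟩

theorem tfae_word4 (hS : Subgroup.closure (S : Set G) = ⊤) :
    List.TFAE [∃ f : List Bool → G, CoarseEmb (wordDist S) f,
      ∃ f : List Bool → G, QIEmb (wordDist S) f,
      ∃ f : List Bool → G, RegularMap (wordDist S) f, ¬ Supramenable G] := by
  have h := tfae_of_cov4 (wordDist S) (word_self S) (word_symm S) (word_triangle S hS)
    (cov_word S hS)
  rw [← supra_iff S hS] at h
  exact h

end grp

end Pool.Agent.N485.BT
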