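import Mathlib
import Pool.Agent.N485.BT.Supra
import Pool.Agent.N485.BT.Mean

/-! # Extensions by kernels of subexponential relative growth -/

set_option autoImplicit false

namespace Pool.Agent.N485.BT

open Filter Finset

theorem enc_append (x y : List (Bool × Lt)) : enc (x ++ y) = enc x ++ enc y := by
  induction x with
  | nil => rfl
  | cons a x ih => rw [List.cons_append, enc, enc, ih, List.append_assoc]

theorem length_enc (x : List (Bool × Lt)) : (enc x).length = 13 * x.length := by
  induction x with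
  | nil => rfl
  | cons a x ih =>
    rw [enc, List.length_append, ih]
    simp only [List.length_cons, List.length_ofFn]
    ring

section core2
variable {X : Type*} (D : X → X → ℝ) (h0 : ∀ x, D x x = 0) (hsym : ∀ x y, D x y = D y x)
  (htri : ∀ x y z, D x z ≤ D x y + D y z)
include h0 hsym htri

/-- The core theorem, with the crowding condition only for vertices at distance `≤ 13 n`. -/
theorem core2 (f : List Bool → X) (L : ℝ) (hL : ∀ b u, D (f (b :: u)) (f u) ≤ L)
    (ε : ℝ) (hε : 0 < ε) (K : ℕ)
    (hcrowd : ∀ u (n : ℕ), ∃ B : Finset (List Bool), B.card ≤ K * 2 ^ n ∧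
      ∀ v, tdist u v ≤ 13 * n → D (f u) (f v) ≤ ε * n → v ∈ B) :
    ∃ g : List Bool → List Bool, QIEmb D (fun u => f (g u)) := by
  classical
  choose B hBc hB using hcrowd
  let B' : ℕ → List (Bool × Lt) → Finset (List (Bool × Lt)) :=
    fun n x => (B (enc x) n).preimage enc enc_injective.injOn
  have hB'c : ∀ n x, (B' n x).card ≤ K * 2 ^ n := by
    intro n x
    refine le_trans ?_ (hBc (enc x) n)
    apply card_le_card_of_injOn enc
    · intro y hy
      simpa [B'] using hy
    · exact enc_injective.injOn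
  have hB' : ∀ (n : ℕ) x y, tdist (enc x) (enc y) ≤ 13 * n →
      D (f (enc x)) (f (enc y)) ≤ ε * n → y ∈ B' n x := by
    intro n x y h1 h
    simp only [B', mem_preimage]
    exact hB _ _ _ h1 h
  obtain ⟨c, hc⟩ := prune (A := Lt) (B := B') (n0 := 4 * K + 1) (by simp) K hB'c
    (by
      have := (4 * K + 1).lt_two_pow_self
      omega) (by omega)
  obtain ⟨F, hF⟩ : ∃ F : List Bool → X, ∀ u, F u = f (enc (phi c u)) := ⟨_, fun _ => rfl⟩
  have hL' : ∀ b u, D (F (b :: u)) (F u) ≤ L * 13 := by
    intro b u
    have := lip_append D h0 hsym htri f L hL (b :: List.ofFn (c (phi c u, b))) (enc (phi c u))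
    simpa [hF, phi, enc] using this
  have hlow : ∀ w p s : List Bool, (∀ x y, p.getLast? = some x → s.getLast? = some y → x ≠ y) →
      4 * K + 1 ≤ p.length + s.length →
      ε * ((p.length + s.length : ℕ) : ℝ) < D (F (p ++ w)) (F (s ++ w)) := by
    intro w p s hps hn
    by_contra h
    have h' : D (F (p ++ w)) (F (s ++ w)) ≤ ε * ((p.length + s.length : ℕ) : ℝ) := not_lt.mp h
    have ht : ∀ p s : List Bool, tdist (enc (phi c (p ++ w))) (enc (phi c (s ++ w))) ≤
        13 * (p.length + s.length) := by
      intro p s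
      rw [phi_append, phi_append, enc_append, enc_append]
      refine (tdist_le _ _ _).trans ?_
      rw [length_enc, length_enc, length_psi, length_psi]
      omega
    rw [hF, hF] at h'
    have h1 := hB' _ _ _ (ht p s) h'
    rw [hsym] at h'
    have h2 := hB' _ _ _ (by rw [add_comm]; exact ht s p) h'
    rw [phi_append, phi_append] at h1 h2
    refine hc (phi c w) (psi c w p) (psi c w s) (div_psi c w p s hps)
        (by rw [length_psi, length_psi]; exact hn) (T_psi c w p) (T_psi c w s) ?_
    rw [length_psi, length_psi]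
    exact ⟨h1, h2⟩
  clear hc hB' hB'c hB hBc
  have hL0 : 0 ≤ L * 13 := (D_nonneg D h0 hsym htri _ _).trans (hL' true [])
  obtain ⟨bb, hb1, hb2⟩ : ∃ bb : ℝ, ε * (4 * K + 1) ≤ bb ∧ L * 13 ≤ bb :=
    ⟨max (ε * (4 * K + 1)) (L * 13), le_max_left _ _, le_max_right _ _⟩
  refine ⟨fun u => enc (phi c u), ε, bb, hε, ?_⟩
  intro u v
  have hb0 : 0 ≤ bb := hL0.trans hb2
  have htd : (0 : ℝ) ≤ tdist u v := by positivity
  show ε * tdist u v - bb ≤ D (f (enc (phi c u))) (f (enc (phi c v))) ∧
    D (f (enc (phi c u))) (f (enc (phi c v))) ≤ bb * tdist u v + bb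
  rw [← hF, ← hF]
  constructor
  · obtain ⟨w, p, s, hu, hv, hps⟩ := meet u v
    have h1 : tdist u v ≤ p.length + s.length := by rw [hu, hv]; exact tdist_le p s w
    have h1' : (tdist u v : ℝ) ≤ ((p.length + s.length : ℕ) : ℝ) := by exact_mod_cast h1
    by_cases hn : 4 * K + 1 ≤ p.length + s.length
    · have h2 := hlow w p s hps hn
      rw [← hu, ← hv] at h2
      have h4 : ε * tdist u v ≤ ε * ((p.length + s.length : ℕ) : ℝ) := by gcongr
      linarith
    · have h5 := D_nonneg D h0 hsym htri (F u) (F v)
      have h6 : (tdist u v : ℝ) ≤ 4 * K + 1 := by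
        have : tdist u v ≤ 4 * K + 1 := by omega
        exact_mod_cast this
      have h7 : ε * tdist u v ≤ ε * (4 * K + 1) := by gcongr
      linarith
  · have h1 := lip_tdist D h0 hsym htri F (L * 13) hL' u v
    have h2 : L * 13 * tdist u v ≤ bb * tdist u v := by gcongr
    linarith

end core2

section InB
variable {G : Type*} [Group G]

/-- `g` is a product of at most `n` elements of `S` and inverses of such elements -/
def InB (S : Finset G) (n : ℕ) (g : G) : Prop :=
  ∃ l : List G, l.length ≤ n ∧ (∀ x ∈ l, x ∈ S ∨ x⁻¹ ∈ S) ∧ l.prod = g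

theorem InB.mul {S : Finset G} {n m : ℕ} {g h : G} (hg : InB S n g) (hh : InB S m h) :
    InB S (n + m) (g * h) := by
  obtain ⟨l, h1, h2, rfl⟩ := hg
  obtain ⟨l', h3, h4, rfl⟩ := hh
  refine ⟨l ++ l', by rw [List.length_append]; omega, ?_, by simp⟩
  intro x hx
  rcases List.mem_append.mp hx with h | h
  · exact h2 x h
  · exact h4 x h

theorem InB.inv {S : Finset G} {n : ℕ} {g : G} (hg : InB S n g) : InB S n g⁻¹ := by
  obtain ⟨l, h1, h2, rfl⟩ := hg
  refine ⟨(l.map (fun x => x⁻¹)).reverse, by simpa using h1, ?_, by rw [List.prod_inv_reverse]⟩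
  intro x hx
  rw [List.mem_reverse, List.mem_map] at hx
  obtain ⟨y, hy, rfl⟩ := hx
  rw [inv_inv]
  exact (h2 y hy).symm

theorem InB.mono {S : Finset G} {n m : ℕ} {g : G} (hg : InB S n g) (h : n ≤ m) : InB S m g := by
  obtain ⟨l, h1, h2, h3⟩ := hg
  exact ⟨l, h1.trans h, h2, h3⟩

theorem InB.one (S : Finset G) (n : ℕ) : InB S n 1 := ⟨[], by simp, by simp, rfl⟩

theorem finite_InB (S : Finset G) (n : ℕ) : {g | InB S n g}.Finite := by
  classical
  induction n with
  | zero =>
    apply (Set.finite_singleton (1 : G)).subset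
    rintro g ⟨l, h1, _, rfl⟩
    have : l = [] := List.length_eq_zero_iff.mp (by omega)
    simp [this]
  | succ n ih =>
    have hfin : ((S : Set G) ∪ (S : Set G)⁻¹).Finite :=
      (Finset.finite_toSet S).union (Finset.finite_toSet S).inv
    apply ((Set.finite_singleton (1 : G)).union (hfin.mul ih)).subset
    rintro g ⟨l, h1, h2, rfl⟩
    cases l with
    | nil => left; rfl
    | cons x l =>
      right
      rw [List.prod_cons]
      apply Set.mul_mem_mul
      · rcases h2 x (by simp) with h | h
        · left; exact h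
        · right; exact h
      · simp only [List.length_cons] at h1
        exact ⟨l, by omega, fun y hy => h2 y (by simp [hy]), rfl⟩

end InB

end Pool.Agent.N485.BT
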