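import Mathlib
import Pool.Agent.N485.BT.Ext

/-! # Supramenability of extensions by kernels of subexponential relative growth -/

set_option autoImplicit false

namespace Pool.Agent.N485.BT

open Filter Finset

/-- `G` is supramenable: for every nonempty `A` there is a finitely additive left-invariant measure
on all subsets of `G`, with values in `[0, ∞]`, giving `A` measure one. -/
def SupramenableM (G : Type*) [Group G] : Prop := ∀ A : Set G, A.Nonempty → HasMeasure A

section bridge
variable {Q : Type*} [Group Q] (Q0 : Subgroup Q)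

theorem lpar_of_paradoxical (A : Set Q0) (h : Paradoxical A) :
    LPar {x : Q | ∃ a ∈ A, x = (a : Q)⁻¹} := by
  classical
  obtain ⟨T, j, hj, hinj⟩ := h
  let J : Bool → Q → Q := fun i x => if h : x⁻¹ ∈ Q0 then ((j i ⟨x⁻¹, h⟩ : Q0) : Q)⁻¹ else x
  have hJ : ∀ i (a : Q0), J i ((a : Q)⁻¹) = ((j i a : Q0) : Q)⁻¹ := by
    intro i a
    have h1 : ((a : Q)⁻¹)⁻¹ ∈ Q0 := by rw [inv_inv]; exact a.2
    simp only [J, h1, dite_true]
    congr 3
    apply Subtype.ext
    simp
  refine ⟨T.image (fun t : Q0 => (t : Q)⁻¹), J, ?_, ?_⟩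
  · rintro i _ ⟨a, ha, rfl⟩
    obtain ⟨h1, t, ht, h2⟩ := hj i a ha
    rw [hJ]
    refine ⟨⟨_, h1, rfl⟩, (t : Q)⁻¹, mem_image_of_mem (fun t : Q0 => (t : Q)⁻¹) ht, ?_⟩
    rw [h2]
    simp
  · rintro i i' _ _ ⟨a, ha, rfl⟩ ⟨a', ha', rfl⟩ h
    rw [hJ, hJ] at h
    have h1 := Subtype.ext (inv_injective h)
    have h2 := hinj i i' a a' ha ha' h1
    exact ⟨h2.1, by rw [h2.2]⟩

end bridge

section ext
variable {Γ Q : Type*} [Group Γ] [Group Q] (π : Γ →* Q)

/-- The kernel of `π` has subexponential growth in `Γ`. -/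
def SubexpKer : Prop := ∀ (S : Finset Γ) (b : ℝ), 1 < b → ∃ n0 : ℕ, ∀ n ≥ n0,
  (Nat.card {g : Γ | π g = 1 ∧ InB S n g} : ℝ) ≤ b ^ n

/-- number of the elements of the kernel in a ball -/
noncomputable def kap (S : Finset Γ) (n : ℕ) : ℕ := Nat.card {g : Γ | π g = 1 ∧ InB S n g}

theorem ker_finite (S : Finset Γ) (n : ℕ) : {g : Γ | π g = 1 ∧ InB S n g}.Finite :=
  (finite_InB S n).subset (fun _ h => h.2)

theorem card_le_kap (S : Finset Γ) (n : ℕ) (E : Finset Γ) (h : ∀ g ∈ E, π g = 1 ∧ InB S n g) :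
    E.card ≤ kap π S n := by
  unfold kap
  rw [Nat.card_coe_set_eq, ← Set.ncard_coe_finset E]
  exact Set.ncard_le_ncard (fun g hg => h g hg) (ker_finite π S n)

theorem kap_mono (S : Finset Γ) {n m : ℕ} (h : n ≤ m) : kap π S n ≤ kap π S m := by
  unfold kap
  rw [Nat.card_coe_set_eq, Nat.card_coe_set_eq]
  exact Set.ncard_le_ncard (fun g hg => ⟨hg.1, hg.2.mono h⟩) (ker_finite π S m)

theorem kap_bound (hker : SubexpKer π) (S : Finset Γ) :
    ∃ K0 : ℕ, ∀ n, kap π S (26 * n) ≤ K0 * 2 ^ (n / 2) := by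
  obtain ⟨n0, hn0⟩ := hker S (105 / 104) (by norm_num)
  refine ⟨2 + kap π S n0, fun n => ?_⟩
  rcases le_total n0 (26 * n) with h | h
  · have h1 := hn0 (26 * n) h
    have h2 : ((105 : ℝ) / 104) ^ (26 * n) ≤ 2 * 2 ^ (n / 2) := by
      have h3 : 26 * n ≤ 52 * (n / 2) + 26 := by omega
      calc ((105 : ℝ) / 104) ^ (26 * n) ≤ (105 / 104) ^ (52 * (n / 2) + 26) :=
            pow_le_pow_right₀ (by norm_num) h3
        _ = ((105 / 104) ^ 52) ^ (n / 2) * (105 / 104) ^ 26 := by rw [pow_add, pow_mul]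
        _ ≤ 2 ^ (n / 2) * 2 := by
          gcongr
          · norm_num
          · norm_num
        _ = _ := by ring
    have h4 : (kap π S (26 * n) : ℝ) ≤ 2 * 2 ^ (n / 2) := h1.trans h2
    have h5 : kap π S (26 * n) ≤ 2 * 2 ^ (n / 2) := by exact_mod_cast h4
    exact h5.trans (by gcongr; omega)
  · have h1 := kap_mono π S h
    have h2 : 1 ≤ 2 ^ (n / 2) := Nat.one_le_two_pow
    calc kap π S (26 * n) ≤ kap π S n0 := h1
      _ ≤ (2 + kap π S n0) * 1 := by omega
      _ ≤ _ := by gcongr

theorem supramenable_of_kernel (hker : SubexpKer π) (hQ : SupramenableM Q) :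
    SupramenableM Γ := by
  classical
  intro A hA
  rcases hasMeasure_or_lpar A with h | hpar
  · exact h
  exfalso
  obtain ⟨T, j, hj, hinj⟩ := hpar
  have hjA : ∀ i, ∀ x ∈ A, j i x ∈ A := fun i x hx => (hj i x hx).1
  obtain ⟨x0, hx0, hnp⟩ := exists_root j A hjA hinj hA
  have hfinj := orb_injective j A hjA hinj x0 hx0 hnp
  -- the inverse orbit
  let F : List Bool → Γ := fun u => x0 * (orb j x0 u)⁻¹
  have hFinj : Function.Injective F := by
    intro u v h
    exact hfinj (inv_injective (mul_left_cancel h))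
  have hFstep : ∀ b u, ∃ t ∈ T, F (b :: u) = F u * t⁻¹ := by
    intro b u
    obtain ⟨t, ht, h⟩ := (hj b _ (orb_mem j A hjA x0 hx0 u)).2
    refine ⟨t, ht, ?_⟩
    simp only [F, orb, h, mul_inv_rev]
    group
  -- the quotient
  let Q0 : Subgroup Q := Subgroup.closure ((T.image π : Finset Q) : Set Q)
  have hTQ : ∀ t ∈ T, π t ∈ Q0 := fun t ht =>
    Subgroup.subset_closure (mem_coe.mpr (mem_image_of_mem _ ht))
  let SQ : Finset Q0 := T.attach.image (fun t => ⟨π t.1, hTQ t.1 t.2⟩)
  have hSQ : Subgroup.closure (SQ : Set Q0) = ⊤ := by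
    have h1 := Subgroup.closure_closure_coe_preimage (k := ((T.image π : Finset Q) : Set Q))
    rw [← h1]
    congr 1
    ext ⟨x, hx⟩
    simp only [SQ, coe_image, Set.mem_image, mem_coe, mem_attach, true_and, Subtype.exists,
      Set.mem_preimage, Subtype.mk.injEq, exists_prop]
  have hFmem : ∀ u, π (F u) ∈ Q0 := by
    intro u
    induction u with
    | nil => simp [F, orb, Q0.one_mem]
    | cons b u ih =>
      obtain ⟨t, ht, h⟩ := hFstep b u
      rw [h, map_mul, map_inv]
      exact Q0.mul_mem ih (Q0.inv_mem (hTQ t ht))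
  let h : List Bool → Q0 := fun u => ⟨π (F u), hFmem u⟩
  have hh0 := word_self SQ
  have hhs := word_symm SQ
  have hht := word_triangle SQ hSQ
  have hhL : ∀ b u, wordDist SQ (h (b :: u)) (h u) ≤ 1 := by
    intro b u
    obtain ⟨t, ht, he⟩ := hFstep b u
    have h1 : h u = h (b :: u) * ⟨π t, hTQ t ht⟩ := by
      apply Subtype.ext
      simp only [h, he, map_mul, map_inv, Subgroup.coe_mul]
      group
    rw [h1]
    unfold wordDist
    have h2 := cay_dist_step SQ (h (b :: u)) ⟨π t, hTQ t ht⟩ (by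
      simp only [SQ, mem_image, mem_attach, true_and, Subtype.exists]
      exact ⟨t, ht, rfl⟩)
    exact_mod_cast h2
  -- words between the images
  have hwalk : ∀ {u v : List Bool} (q : treeG.Walk u v), InB T q.length ((F u)⁻¹ * F v) := by
    intro u v q
    induction q with
    | nil => rw [inv_mul_cancel]; exact InB.one T _
    | cons hadj q ih =>
      rename_i a b c
      have h1 : InB T 1 ((F a)⁻¹ * F b) := by
        rcases adj_cases hadj with ⟨x, hx⟩ | ⟨x, hx⟩
        · obtain ⟨t, ht, he⟩ := hFstep x b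
          rw [hx, he]
          refine ⟨[t], by simp, by simp [ht], ?_⟩
          simp only [List.prod_singleton]
          group
        · obtain ⟨t, ht, he⟩ := hFstep x a
          rw [hx, he]
          refine ⟨[t⁻¹], by simp, by simp [ht], ?_⟩
          simp only [List.prod_singleton]
          group
      have h2 := h1.mul ih
      have h3 : (F a)⁻¹ * F b * ((F b)⁻¹ * F c) = (F a)⁻¹ * F c := by group
      rw [h3] at h2
      rw [SimpleGraph.Walk.length_cons, add_comm]
      exact h2
  have hword : ∀ u v, InB T (tdist u v) ((F u)⁻¹ * F v) := by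
    intro u v
    obtain ⟨q, hq⟩ := tree_connected.exists_walk_length_eq_dist u v
    have := hwalk q
    rw [hq] at this
    exact this
  obtain ⟨K0, hK0⟩ := kap_bound π hker T
  let M : ℕ := 2 * SQ.card + 1
  have hM : 0 < M := by omega
  obtain ⟨g, hg⟩ := core2 (wordDist SQ) hh0 hhs hht h 1 hhL (1 / ((2 * M : ℕ) : ℝ))
    (by positivity) K0 (by
    intro u n
    let V : Finset (List Bool) := (Nb u (13 * n)).filter (fun v => tdist u v ≤ 13 * n ∧
      wordDist SQ (h u) (h v) ≤ 1 / ((2 * M : ℕ) : ℝ) * n)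
    refine ⟨V, ?_, ?_⟩
    · let k := n / (2 * M)
      have hmaps : ∀ v ∈ V, (h u)⁻¹ * h v ∈ Bl SQ k 1 := by
        intro v hv
        have hv' := (mem_filter.mp hv).2.2
        have h1 : wordDist SQ (h u) (h v) ≤ (k : ℝ) := by
          unfold wordDist at hv' ⊢
          have h2 : ((cay SQ).dist (h u) (h v) : ℝ) * ((2 * M : ℕ) : ℝ) ≤ n := by
            rw [one_div, inv_mul_eq_div, le_div_iff₀ (by positivity)] at hv'
            exact hv'
          have h3 : (cay SQ).dist (h u) (h v) * (2 * M) ≤ n := by exact_mod_cast h2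
          have h4 : (cay SQ).dist (h u) (h v) ≤ k :=
            (Nat.le_div_iff_mul_le (by omega)).mpr h3
          exact_mod_cast h4
        have h5 := mem_Bl_of_dist SQ hSQ h1
        have h6 := Bl_translate SQ k (h u)⁻¹ (h u) (h v) h5
        rwa [inv_mul_cancel] at h6
      have hfib : ∀ q ∈ Bl SQ k 1, (V.filter (fun v => (h u)⁻¹ * h v = q)).card ≤
          kap π T (26 * n) := by
        intro q _
        rcases (V.filter (fun v => (h u)⁻¹ * h v = q)).eq_empty_or_nonempty with he | ⟨v0, hv0⟩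
        · rw [he]; simp
        rw [mem_filter] at hv0
        rw [← card_image_of_injective _ (show Function.Injective
          (fun v => (F v0)⁻¹ * F v) from fun a b hab => hFinj (mul_left_cancel hab))]
        apply card_le_kap
        intro z hz
        rw [mem_image] at hz
        obtain ⟨v, hv, rfl⟩ := hz
        rw [mem_filter] at hv
        constructor
        · have h1 : (h u)⁻¹ * h v = (h u)⁻¹ * h v0 := hv.2.trans hv0.2.symm
          have h2 : h v = h v0 := mul_left_cancel h1
          have h3 : π (F v) = π (F v0) := congrArg Subtype.val h2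
          rw [map_mul, map_inv, h3, inv_mul_cancel]
        · have h1 := (hword u v0).mono (mem_filter.mp hv0.1).2.1
          have h2 := (hword u v).mono (mem_filter.mp hv.1).2.1
          have h3 := h1.inv.mul h2
          have h4 : ((F u)⁻¹ * F v0)⁻¹ * ((F u)⁻¹ * F v) = (F v0)⁻¹ * F v := by group
          rw [h4] at h3
          exact h3.mono (by omega)
      have hcard := card_le_mul_card_image_of_maps_to hmaps (kap π T (26 * n)) hfib
      have h1 := card_Bl SQ k 1
      have h2 : M ^ k ≤ 2 ^ (n / 2) := by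
        calc M ^ k ≤ (2 ^ M) ^ k := Nat.pow_le_pow_left M.lt_two_pow_self.le _
          _ = 2 ^ (M * k) := by rw [← pow_mul]
          _ ≤ 2 ^ (n / 2) := by
            apply Nat.pow_le_pow_right (by norm_num)
            rw [Nat.le_div_iff_mul_le (by norm_num)]
            calc M * k * 2 = 2 * M * (n / (2 * M)) := by ring
              _ ≤ n := Nat.mul_div_le _ _
      calc V.card ≤ kap π T (26 * n) * (Bl SQ k 1).card := hcard
        _ ≤ (K0 * 2 ^ (n / 2)) * 2 ^ (n / 2) := by
          gcongr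
          · exact hK0 n
          · exact h1.trans h2
        _ = K0 * 2 ^ (n / 2 + n / 2) := by rw [mul_assoc, ← pow_add]
        _ ≤ K0 * 2 ^ n := by
          gcongr
          · norm_num
          · omega
    · intro v h1 h2
      exact mem_filter.mpr ⟨mem_Nb_of_tdist h1, h1, h2⟩)
  have hns : ¬ Supramenable Q0 := ((tfae_word4 SQ hSQ).out 1 3).mp
    (show ∃ f : List Bool → Q0, QIEmb (wordDist SQ) f from ⟨_, hg⟩)
  unfold Supramenable at hns
  push Not at hns
  obtain ⟨A0, hA0, hpar⟩ := hns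
  have h1 := lpar_of_paradoxical Q0 A0 hpar
  obtain ⟨a, ha⟩ := hA0
  exact not_hasMeasure_of_lpar _ h1 (hQ _ ⟨(a : Q)⁻¹, a, ha, rfl⟩)

end ext

end Pool.Agent.N485.BT
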