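import Mathlib
import Pool.Agent.N485.BT.Kernel

/-! # Products with exponentially bounded groups -/

set_option autoImplicit false

namespace Pool.Agent.N485.BT

open Filter Finset

/-- `H` is exponentially bounded: for every finite `S` and every `b > 1` the number of the elements
of `H` that are products of at most `n` elements of `S` and inverses of such elements is at most
`b ^ n` for all large `n`. -/
def ExpBounded (H : Type*) [Group H] : Prop := ∀ (S : Finset H) (b : ℝ), 1 < b → ∃ n0 : ℕ,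
  ∀ n ≥ n0, (Nat.card {g : H | InB S n g} : ℝ) ≤ b ^ n

section
variable {Γ Δ : Type*} [Group Γ] [Group Δ]

theorem InB.map (π : Γ →* Δ) [DecidableEq Δ] {S : Finset Γ} {n : ℕ} {g : Γ} (h : InB S n g) :
    InB (S.image π) n (π g) := by
  obtain ⟨l, h1, h2, rfl⟩ := h
  refine ⟨l.map π, by simpa using h1, ?_, by rw [map_list_prod]⟩
  intro x hx
  rw [List.mem_map] at hx
  obtain ⟨y, hy, rfl⟩ := hx
  rcases h2 y hy with h | h
  · left; exact mem_image_of_mem _ h
  · right; rw [← map_inv]; exact mem_image_of_mem _ h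

end

section
variable {G H : Type*} [Group G] [Group H]

theorem subexpKer_fst (hH : ExpBounded H) : SubexpKer (MonoidHom.fst G H) := by
  classical
  intro S b hb
  obtain ⟨n0, hn0⟩ := hH (S.image (MonoidHom.snd G H)) b hb
  refine ⟨n0, fun n hn => le_trans ?_ (hn0 n hn)⟩
  rw [Nat.card_coe_set_eq, Nat.card_coe_set_eq]
  have h1 : {g : G × H | (MonoidHom.fst G H) g = 1 ∧ InB S n g}.ncard ≤
      {g : H | InB (S.image (MonoidHom.snd G H)) n g}.ncard := by
    refine Set.ncard_le_ncard_of_injOn (MonoidHom.snd G H) ?_ ?_ (finite_InB _ n)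
    · intro g hg
      exact hg.2.map (MonoidHom.snd G H)
    · rintro ⟨a, b⟩ ha ⟨c, d⟩ hc h
      have e1 : a = 1 := ha.1
      have e2 : c = 1 := hc.1
      have e3 : b = d := h
      rw [e1, e2, e3]
  exact_mod_cast h1

theorem supramenable_prod (hG : SupramenableM G) (hH : ExpBounded H) :
    SupramenableM (G × H) :=
  supramenable_of_kernel (MonoidHom.fst G H) (subexpKer_fst hH) hG

theorem trivial_subexpKer {Γ Q : Type*} [Group Γ] [Group Q] (π : Γ →* Q)
    (hfin : {g : Γ | π g = 1}.Finite) : SubexpKer π := by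
  intro S b hb
  obtain ⟨n0, hn0⟩ := pow_unbounded_of_one_lt ({g : Γ | π g = 1}.ncard : ℝ) hb
  refine ⟨n0, fun n hn => ?_⟩
  rw [Nat.card_coe_set_eq]
  have h2 : {g : Γ | π g = 1 ∧ InB S n g}.ncard ≤ {g : Γ | π g = 1}.ncard :=
    Set.ncard_le_ncard (fun g hg => hg.1) hfin
  have h1 : ({g : Γ | π g = 1 ∧ InB S n g}.ncard : ℝ) ≤ {g : Γ | π g = 1}.ncard := by
    exact_mod_cast h2
  exact h1.trans (hn0.le.trans (pow_le_pow_right₀ hb.le hn))

end

end Pool.Agent.N485.BT
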