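import Mathlib
import Pool.Agent.N485.BT.Product

/-! # Supramenability and quasi-isometrically embedded binary trees -/

set_option autoImplicit false

namespace Pool.Agent.N485.BT

open Filter Finset

/-- Exponentially bounded growth for one finite subset. -/
def SubexpGrowth {G : Type*} [Group G] (S : Finset G) : Prop := ∀ b : ℝ, 1 < b → ∃ n0 : ℕ,
  ∀ n ≥ n0, (Nat.card {g : G | InB S n g} : ℝ) ≤ b ^ n

section
variable {G : Type*} [Group G]

theorem paradoxical_of_lpar (A : Set G) (h : LPar A) : Paradoxical {x : G | x⁻¹ ∈ A} := by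
  classical
  obtain ⟨T, j, hj, hinj⟩ := h
  refine ⟨T.image (fun t => t⁻¹), fun i x => (j i x⁻¹)⁻¹, ?_, ?_⟩
  · intro i x hx
    have hx' : x⁻¹ ∈ A := hx
    obtain ⟨h1, t, ht, h2⟩ := hj i _ hx'
    refine ⟨?_, t⁻¹, mem_image_of_mem _ ht, ?_⟩
    · show ((j i x⁻¹)⁻¹)⁻¹ ∈ A
      rw [inv_inv]; exact h1
    · show (j i x⁻¹)⁻¹ = x * t⁻¹
      rw [h2]; simp
  · intro i i' x x' hx hx' h
    have h1 := hinj i i' _ _ hx hx' (inv_injective h)
    exact ⟨h1.1, inv_injective h1.2⟩

theorem supramenableM_of_supramenable (h : Supramenable G) : SupramenableM G := by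
  intro A hA
  rcases hasMeasure_or_lpar A with h1 | h1
  · exact h1
  · exfalso
    obtain ⟨a, ha⟩ := hA
    refine h _ ⟨a⁻¹, ?_⟩ (paradoxical_of_lpar A h1)
    show (a⁻¹)⁻¹ ∈ A
    rw [inv_inv]; exact ha

theorem supramenable_subgroup (K : Subgroup G) (h : SupramenableM G) : Supramenable K := by
  intro A hA hpar
  obtain ⟨a, ha⟩ := hA
  exact not_hasMeasure_of_lpar _ (lpar_of_paradoxical K A hpar) (h _ ⟨(a : G)⁻¹, a, ha, rfl⟩)

theorem supramenable_of_supramenableM (h : SupramenableM G) : Supramenable G := by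
  intro A hA hpar
  obtain ⟨T, j, hj, hinj⟩ := hpar
  have hl : LPar {x : G | x⁻¹ ∈ A} := by
    classical
    refine ⟨T.image (fun t => t⁻¹), fun i x => (j i x⁻¹)⁻¹, ?_, ?_⟩
    · intro i x hx
      have hx' : x⁻¹ ∈ A := hx
      obtain ⟨h1, t, ht, h2⟩ := hj i _ hx'
      refine ⟨?_, t⁻¹, mem_image_of_mem _ ht, ?_⟩
      · show ((j i x⁻¹)⁻¹)⁻¹ ∈ A
        rw [inv_inv]; exact h1
      · show (j i x⁻¹)⁻¹ = t⁻¹ * x
        rw [h2]; simp
    · intro i i' x x' hx hx' h
      have h1 := hinj i i' _ _ hx hx' (inv_injective h)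
      exact ⟨h1.1, inv_injective h1.2⟩
  obtain ⟨a, ha⟩ := hA
  refine not_hasMeasure_of_lpar _ hl (h _ ⟨a⁻¹, ?_⟩)
  show (a⁻¹)⁻¹ ∈ A
  rw [inv_inv]; exact ha

theorem supramenable_iff : SupramenableM G ↔ Supramenable G :=
  ⟨supramenable_of_supramenableM, supramenableM_of_supramenable⟩

/-- criterion for finitely generated groups -/
theorem fg_criterion (S : Finset G) (hS : Subgroup.closure (S : Set G) = ⊤) :
    SupramenableM G ↔ ¬ ∃ f : List Bool → G, QIEmb (wordDist S) f := by
  rw [supramenable_iff]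
  have h := (tfae_word4 S hS).out 1 3
  rw [h, not_not]

open Classical in
/-- the finite generating set of the closure -/
noncomputable def genS (S : Finset G) : Finset (Subgroup.closure (S : Set G)) :=
  S.attach.image (fun t => ⟨t.1, Subgroup.subset_closure t.2⟩)

theorem mem_genS (S : Finset G) (k : Subgroup.closure (S : Set G)) :
    k ∈ genS S ↔ (k : G) ∈ S := by
  classical
  unfold genS
  rw [mem_image]
  constructor
  · rintro ⟨t, _, rfl⟩
    exact t.2
  · intro h
    exact ⟨⟨(k : G), h⟩, mem_attach _ _, rfl⟩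

theorem genS_closure (S : Finset G) :
    Subgroup.closure ((genS S : Finset (Subgroup.closure (S : Set G))) :
      Set (Subgroup.closure (S : Set G))) = ⊤ := by
  have h1 := Subgroup.closure_closure_coe_preimage (k := (S : Set G))
  rw [← h1]
  congr 1
  ext k
  rw [mem_coe, mem_genS]
  rfl

theorem InB_lift (S : Finset G) (n : ℕ) (g : G) (h : InB S n g) :
    ∃ k : Subgroup.closure (S : Set G), (k : G) = g ∧ InB (genS S) n k := by
  obtain ⟨l, h1, h2, rfl⟩ := h
  induction l generalizing n with
  | nil => exact ⟨1, by simp, InB.one _ _⟩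
  | cons x l ih =>
    simp only [List.length_cons] at h1
    obtain ⟨m, rfl⟩ : ∃ m, n = m + 1 := ⟨n - 1, by omega⟩
    obtain ⟨k, hk, hk2⟩ := ih m (by omega) (fun y hy => h2 y (by simp [hy]))
    have hx : ∃ kx : Subgroup.closure (S : Set G), (kx : G) = x ∧ InB (genS S) 1 kx := by
      rcases h2 x (by simp) with h | h
      · refine ⟨⟨x, Subgroup.subset_closure h⟩, rfl, [⟨x, Subgroup.subset_closure h⟩], by simp, ?_,
          by simp⟩
        intro y hy
        rw [List.mem_singleton] at hy
        left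
        rw [hy, mem_genS]
        exact h
      · have hx0 : x ∈ Subgroup.closure (S : Set G) := by
          rw [← inv_inv x]; exact Subgroup.inv_mem _ (Subgroup.subset_closure h)
        refine ⟨⟨x, hx0⟩, rfl, [⟨x, hx0⟩], by simp, ?_, by simp⟩
        intro y hy
        rw [List.mem_singleton] at hy
        right
        rw [hy, mem_genS]
        exact h
    obtain ⟨kx, hkx, hkx2⟩ := hx
    refine ⟨kx * k, by rw [Subgroup.coe_mul, hkx, hk, List.prod_cons], ?_⟩
    have := hkx2.mul hk2
    rwa [add_comm] at this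

theorem card_lift (S : Finset G) (n : ℕ) :
    Nat.card {g : G | InB S n g} ≤
      Nat.card {k : Subgroup.closure (S : Set G) | InB (genS S) n k} := by
  rw [Nat.card_coe_set_eq, Nat.card_coe_set_eq]
  have hsub : {g : G | InB S n g} ⊆
      Subtype.val '' {k : Subgroup.closure (S : Set G) | InB (genS S) n k} := by
    intro g hg
    obtain ⟨k, hk, hk2⟩ := InB_lift S n g hg
    exact ⟨k, hk2, hk⟩
  calc _ ≤ (Subtype.val '' {k : Subgroup.closure (S : Set G) | InB (genS S) n k}).ncard :=
        Set.ncard_le_ncard hsub ((finite_InB _ n).image _)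
    _ ≤ _ := Set.ncard_image_le (finite_InB _ n)

end

/-- The question whether supramenable groups are exponentially bounded is the question whether
finitely generated groups of exponential growth contain quasi-isometric binary trees. -/
theorem q1_iff :
    (∀ (G : Type) [Group G], SupramenableM G → ExpBounded G) ↔
    (∀ (G : Type) [Group G] (S : Finset G), Subgroup.closure (S : Set G) = ⊤ →
      ¬ SubexpGrowth S → ∃ f : List Bool → G, QIEmb (wordDist S) f) := by
  constructor
  · intro h G _ S hS hg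
    by_contra hno
    exact hg (fun b hb => h G ((fg_criterion S hS).mpr hno) S b hb)
  · intro h G _ hG S
    by_contra hS
    have h1 : ¬ SubexpGrowth (genS S) := by
      intro h2
      apply hS
      intro b hb
      obtain ⟨n0, hn0⟩ := h2 b hb
      refine ⟨n0, fun n hn => le_trans ?_ (hn0 n hn)⟩
      exact_mod_cast card_lift S n
    obtain ⟨f, hf⟩ := h _ (genS S) (genS_closure S) h1
    have h3 := (((tfae_word4 (genS S) (genS_closure S)).out 1 3).mp
      (show ∃ f : List Bool → Subgroup.closure (S : Set G), QIEmb (wordDist (genS S)) f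
        from ⟨f, hf⟩))
    exact h3 (supramenable_subgroup _ hG)

end Pool.Agent.N485.BT
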