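import Mathlib
import Pool.Agent.N485.BT.Crit
import Pool.Agent.Results.MP_587aff_al.ConesGrowth

/-! # The fixed point property for cones and supramenability -/

set_option autoImplicit false

namespace Pool.Agent.N485.BT

open Filter Finset Pointwise
open Pool.Agent.Results.MP_587aff_al.ConesGrowth (ConeProperty LocSubexp)

section
variable {G : Type*} [Group G]

theorem locSubexp_of_subgroups
    (h : ∀ S : Finset G, LocSubexp (Subgroup.closure (S : Set G))) : LocSubexp G := by
  intro S c hc
  filter_upwards [h S (genS S) c hc] with n hn
  refine le_trans ?_ hn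
  have h1 : (Subgroup.closure (S : Set G)).subtype ''
      ((genS S : Finset (Subgroup.closure (S : Set G))) : Set (Subgroup.closure (S : Set G))) =
      (S : Set G) := by
    ext x
    constructor
    · rintro ⟨k, hk, rfl⟩
      exact (mem_genS S k).mp hk
    · intro hx
      exact ⟨⟨x, Subgroup.subset_closure hx⟩, (mem_genS S _).mpr hx, rfl⟩
  have h2 : (S : Set G) ^ n = (Subgroup.closure (S : Set G)).subtype ''
      (((genS S : Finset (Subgroup.closure (S : Set G))) :
        Set (Subgroup.closure (S : Set G))) ^ n) := by
    rw [Set.image_pow, h1]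
  rw [h2]
  have hfin : (((genS S : Finset (Subgroup.closure (S : Set G))) :
        Set (Subgroup.closure (S : Set G))) ^ n).Finite :=
    Pool.Agent.Results.MP_587aff_al.ConesGrowth.pow_finite (S := genS S) n
  exact_mod_cast Set.ncard_image_le hfin

theorem expBounded_of_locSubexp (h : LocSubexp G) : ExpBounded G := by
  classical
  intro S b hb
  let T : Finset G := insert 1 (S ∪ S.image (fun x => x⁻¹))
  obtain ⟨n0, hn0⟩ := eventually_atTop.mp (h T b hb)
  refine ⟨n0, fun n hn => le_trans ?_ (hn0 n hn)⟩
  have hsub : ∀ (n : ℕ) (g : G), InB S n g → g ∈ (T : Set G) ^ n := by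
    intro n
    induction n with
    | zero =>
      rintro g ⟨l, h1, _, rfl⟩
      have : l = [] := List.length_eq_zero_iff.mp (by omega)
      rw [this, pow_zero]
      exact Set.mem_one.mpr rfl
    | succ n ih =>
      rintro g ⟨l, h1, h2, rfl⟩
      rw [pow_succ']
      cases l with
      | nil =>
        rw [List.prod_nil, ← one_mul (1 : G)]
        exact Set.mul_mem_mul (by simp [T]) (ih 1 (InB.one S n))
      | cons x l =>
        rw [List.prod_cons]
        simp only [List.length_cons] at h1
        apply Set.mul_mem_mul
        · rcases h2 x (by simp) with h | h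
          · simp [T, h]
          · simp only [T, coe_insert, coe_union, coe_image, Set.mem_insert_iff, Set.mem_union,
              mem_coe, Set.mem_image]
            right; right
            exact ⟨x⁻¹, h, by simp⟩
        · exact ih _ ⟨l, by omega, fun y hy => h2 y (by simp [hy]), rfl⟩
  rw [Nat.card_coe_set_eq]
  have hfin : ((T : Set G) ^ n).Finite :=
    Pool.Agent.Results.MP_587aff_al.ConesGrowth.pow_finite (S := T) n
  exact_mod_cast Set.ncard_le_ncard (fun g hg => hsub n g hg) hfin

end

theorem cone_q1_iff :
    (∀ (G : Type) [Group G], SupramenableM G → ConeProperty G) ↔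
    (∀ (G : Type) [Group G] (S : Finset G), Subgroup.closure (S : Set G) = ⊤ →
      ¬ ConeProperty G → ∃ f : List Bool → G, QIEmb (wordDist S) f) := by
  constructor
  · intro h G _ S hS hc
    by_contra hno
    exact hc (h G ((fg_criterion S hS).mpr hno))
  · intro h G _ hG
    rw [Pool.Agent.Results.MP_587aff_al.ConesGrowth.result]
    apply locSubexp_of_subgroups
    intro S
    rw [← Pool.Agent.Results.MP_587aff_al.ConesGrowth.result]
    by_contra hno
    have h1 := h _ (genS S) (genS_closure S) hno
    have h3 := ((tfae_word4 (genS S) (genS_closure S)).out 1 3).mp h1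
    exact h3 (supramenable_subgroup _ hG)

theorem cone_prod {G H : Type*} [Group G] [Group H] (hG : SupramenableM G)
    (hH : ConeProperty H) : SupramenableM (G × H) :=
  supramenable_prod hG (expBounded_of_locSubexp
    ((Pool.Agent.Results.MP_587aff_al.ConesGrowth.result H).mp hH))

end Pool.Agent.N485.BT
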