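import Mathlib
import Pool.Agent.N485.BT.Crit

/-! # The geometric form of the question on products -/

set_option autoImplicit false

namespace Pool.Agent.N485.BT

open Finset

universe u

theorem par_pullback {Γ K : Type*} [Group Γ] [Group K] (φ : K →* Γ) (hφ : Function.Injective φ)
    (A : Set Γ) (T : Finset Γ) (hT : ∀ t ∈ T, ∃ k, φ k = t) (j : Bool → Γ → Γ)
    (hj : ∀ i, ∀ x ∈ A, j i x ∈ A ∧ ∃ t ∈ T, j i x = x * t)
    (hinj : ∀ i i' x x', x ∈ A → x' ∈ A → j i x = j i' x' → i = i' ∧ x = x') (a : Γ) :
    Paradoxical {k : K | a * φ k ∈ A} := by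
  classical
  choose! κ hκ using hT
  have h1 : ∀ (i : Bool) (k : K), ∃ k' : K, a * φ k ∈ A →
      (k' ∈ T.image κ ∧ a * φ (k * k') = j i (a * φ k)) := by
    intro i k
    by_cases hk : a * φ k ∈ A
    · obtain ⟨-, t, ht, h2⟩ := hj i _ hk
      refine ⟨κ t, fun _ => ⟨mem_image_of_mem _ ht, ?_⟩⟩
      rw [map_mul, hκ t ht, h2, mul_assoc]
    · exact ⟨1, fun h => absurd h hk⟩
  choose w hw using h1
  refine ⟨T.image κ, fun i k => k * w i k, ?_, ?_⟩
  · intro i k hk
    have h2 := hw i k hk
    refine ⟨?_, w i k, h2.1, rfl⟩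
    show a * φ (k * w i k) ∈ A
    rw [h2.2]
    exact (hj i _ hk).1
  · intro i i' k k' hk hk' h
    have e : a * φ (k * w i k) = a * φ (k' * w i' k') := by
      have : k * w i k = k' * w i' k' := h
      rw [this]
    rw [(hw i k hk).2, (hw i' k' hk').2] at e
    have h3 := hinj i i' _ _ hk hk' e
    exact ⟨h3.1, hφ (mul_left_cancel h3.2)⟩

theorem closure_prod_fin {K L : Type*} [Group K] [Group L] (S : Finset K) (T : Finset L)
    (hS : Subgroup.closure (S : Set K) = ⊤) (hT : Subgroup.closure (T : Set L) = ⊤) :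
    ∃ U : Finset (K × L), Subgroup.closure (U : Set (K × L)) = ⊤ := by
  classical
  refine ⟨S.image (fun s => (s, 1)) ∪ T.image (fun t => (1, t)), ?_⟩
  rw [eq_top_iff]
  rintro ⟨x, y⟩ -
  have h1 : ∀ x : K, ((x, 1) : K × L) ∈ Subgroup.closure
      ((S.image (fun s => ((s, 1) : K × L)) ∪ T.image (fun t => ((1, t) : K × L)) :
        Finset (K × L)) : Set (K × L)) := by
    intro x
    have hx : x ∈ Subgroup.closure (S : Set K) := by rw [hS]; trivial
    have h2 : Subgroup.closure (S : Set K) ≤ (Subgroup.closure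
      ((S.image (fun s => ((s, 1) : K × L)) ∪ T.image (fun t => ((1, t) : K × L)) :
        Finset (K × L)) : Set (K × L))).comap (MonoidHom.inl K L) := by
      rw [Subgroup.closure_le]
      intro s hs
      rw [SetLike.mem_coe, Subgroup.mem_comap]
      refine Subgroup.subset_closure ?_
      rw [mem_coe, mem_union]
      exact Or.inl (mem_image_of_mem _ hs)
    exact h2 hx
  have h1' : ∀ y : L, ((1, y) : K × L) ∈ Subgroup.closure
      ((S.image (fun s => ((s, 1) : K × L)) ∪ T.image (fun t => ((1, t) : K × L)) :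
        Finset (K × L)) : Set (K × L)) := by
    intro y
    have hy : y ∈ Subgroup.closure (T : Set L) := by rw [hT]; trivial
    have h2 : Subgroup.closure (T : Set L) ≤ (Subgroup.closure
      ((S.image (fun s => ((s, 1) : K × L)) ∪ T.image (fun t => ((1, t) : K × L)) :
        Finset (K × L)) : Set (K × L))).comap (MonoidHom.inr K L) := by
      rw [Subgroup.closure_le]
      intro s hs
      rw [SetLike.mem_coe, Subgroup.mem_comap]
      refine Subgroup.subset_closure ?_
      rw [mem_coe, mem_union]
      exact Or.inr (mem_image_of_mem _ hs)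
    exact h2 hy
  have := Subgroup.mul_mem _ (h1 x) (h1' y)
  simpa using this

/-- The product question is a question on trees in products of finitely generated groups. -/
theorem product_iff :
    (∀ (G H : Type u) [Group G] [Group H], SupramenableM G → SupramenableM H →
      SupramenableM (G × H)) ↔
    (∀ (G H : Type u) [Group G] [Group H] (S : Finset G) (T : Finset H) (U : Finset (G × H)),
      Subgroup.closure (S : Set G) = ⊤ → Subgroup.closure (T : Set H) = ⊤ →
      Subgroup.closure (U : Set (G × H)) = ⊤ →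
      (∃ f : List Bool → G × H, QIEmb (wordDist U) f) →
      (∃ f : List Bool → G, QIEmb (wordDist S) f) ∨ ∃ f : List Bool → H, QIEmb (wordDist T) f) := by
  constructor
  · intro h G H _ _ S T U hS hT hU hf
    by_contra hno
    rw [not_or] at hno
    exact (fg_criterion U hU).mp
      (h G H ((fg_criterion S hS).mpr hno.1) ((fg_criterion T hT).mpr hno.2)) hf
  · intro h G H _ _ hG hH
    classical
    rw [supramenable_iff]
    intro A hA hpar
    obtain ⟨a, ha⟩ := hA
    obtain ⟨T, j, hj, hinj⟩ := hpar
    let S1 : Finset G := T.image Prod.fst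
    let S2 : Finset H := T.image Prod.snd
    obtain ⟨U, hU⟩ := closure_prod_fin (genS S1) (genS S2) (genS_closure S1) (genS_closure S2)
    have n1 : ¬ ∃ f : List Bool → Subgroup.closure (S1 : Set G), QIEmb (wordDist (genS S1)) f :=
      (fg_criterion _ (genS_closure S1)).mp (supramenable_iff.mpr (supramenable_subgroup _ hG))
    have n2 : ¬ ∃ f : List Bool → Subgroup.closure (S2 : Set H), QIEmb (wordDist (genS S2)) f :=
      (fg_criterion _ (genS_closure S2)).mp (supramenable_iff.mpr (supramenable_subgroup _ hH))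
    have n3 : SupramenableM (Subgroup.closure (S1 : Set G) × Subgroup.closure (S2 : Set H)) := by
      refine (fg_criterion U hU).mpr (fun hf => ?_)
      rcases h _ _ (genS S1) (genS S2) U (genS_closure S1) (genS_closure S2) hU hf with h1 | h1
      · exact n1 h1
      · exact n2 h1
    rw [supramenable_iff] at n3
    let φ : Subgroup.closure (S1 : Set G) × Subgroup.closure (S2 : Set H) →* G × H :=
      MonoidHom.prodMap (Subgroup.subtype _) (Subgroup.subtype _)
    have hφ : Function.Injective φ := by
      rintro ⟨x, y⟩ ⟨x', y'⟩ hxy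
      have e1 : (x : G) = x' := congrArg Prod.fst hxy
      have e2 : (y : H) = y' := congrArg Prod.snd hxy
      exact Prod.ext (Subtype.ext e1) (Subtype.ext e2)
    have hT : ∀ t ∈ T, ∃ k, φ k = t := by
      rintro ⟨x, y⟩ ht
      exact ⟨(⟨x, Subgroup.subset_closure (mem_coe.mpr (mem_image_of_mem Prod.fst ht))⟩,
        ⟨y, Subgroup.subset_closure (mem_coe.mpr (mem_image_of_mem Prod.snd ht))⟩), rfl⟩
    refine n3 {k | a * φ k ∈ A} ⟨1, ?_⟩ (par_pullback φ hφ A T hT j hj hinj a)
    show a * φ 1 ∈ A
    rw [map_one, mul_one]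
    exact ha

end Pool.Agent.N485.BT
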